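import Mathlib

/-!
# Atoms, conditions and names

The forcing is a finite support iteration along a well-ordered set `W`. Conditions are finite
sets of atoms. There are three sorts of atoms:

* `coh α ξ j b` : the `j`-th bit of the Cohen real number `ξ` of stage `α` is `b`
  (the bottom stage `⊥` is the ground);
* `el α c y` : the element `y` is in the generic set with index `(α, c)`;
* `pr α c m ...` : a promise on the generic set with index `(α, c)`.

An element is a pair of a natural number and a finite set of pairs from `K × Bool` (a finite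
piece of a function from `K` to `Bool`). A promise refers to a name, which is a countable set of
pairs (condition, element).
-/

set_option autoImplicit false

namespace Pool.Agent.KS6_46.Sp

open Classical

/-- kinds of generic sets -/
abbrev Knd (I K : Type) : Type := I × Option (ℕ → K)

/-- elements -/
abbrev Elt (K : Type) : Type := ℕ × Finset (K × Bool)

/-- atoms of conditions -/
inductive Atom (I K W : Type) : Type
  | coh (α : WithBot W) (ξ : K) (j : ℕ) (b : Bool) : Atom I K W
  | el (α : W) (c : Knd I K) (y : Elt K) : Atom I K W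
  | pr (α : W) (c : Knd I K) (m : ℕ) (on : ℕ → Prop) (len : ℕ → ℕ)
      (sub : (n : ℕ) → Fin (len n) → Atom I K W) (val : ℕ → Elt K) : Atom I K W

variable {I K W : Type}

/-- conditions, before validity is imposed -/
abbrev Cond (I K W : Type) : Type := Finset (Atom I K W)

/-- names -/
abbrev Name (I K W : Type) : Type := Set (Cond I K W × Elt K)

/-- the name with a given code -/
noncomputable def nmOf (on : ℕ → Prop) (len : ℕ → ℕ) (sub : (n : ℕ) → Fin (len n) → Atom I K W)
    (val : ℕ → Elt K) : Name I K W :=
  {u | ∃ n, on n ∧ u = (Finset.univ.image (sub n), val n)}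

theorem nmOf_countable (on : ℕ → Prop) (len : ℕ → ℕ)
    (sub : (n : ℕ) → Fin (len n) → Atom I K W) (val : ℕ → Elt K) :
    (nmOf on len sub val).Countable := by
  refine (Set.countable_range fun n : ℕ => (Finset.univ.image (sub n), val n)).mono ?_
  rintro _ ⟨n, _, rfl⟩
  exact ⟨n, rfl⟩

theorem exists_code (N : Name I K W) (hN : N.Countable) :
    ∃ on len sub val, (nmOf on len sub val : Name I K W) = N := by
  rcases N.eq_empty_or_nonempty with rfl | hne
  · refine ⟨fun _ => False, fun _ => 0, fun _ i => i.elim0, fun _ => (0, ∅), ?_⟩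
    rw [Set.eq_empty_iff_forall_notMem]
    rintro u ⟨n, h, _⟩
    exact h
  · obtain ⟨g, rfl⟩ := hN.exists_eq_range hne
    have himg : ∀ n, (Finset.univ.image fun i : Fin (g n).1.card =>
        (((g n).1.equivFin.symm i).1)) = (g n).1 := by
      intro n
      ext a
      simp only [Finset.mem_image, Finset.mem_univ, true_and]
      constructor
      · rintro ⟨i, rfl⟩
        exact ((g n).1.equivFin.symm i).2
      · intro ha
        exact ⟨(g n).1.equivFin ⟨a, ha⟩, by simp⟩
    refine ⟨fun _ => True, fun n => (g n).1.card,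
      fun n i => ((g n).1.equivFin.symm i).1, fun n => (g n).2, ?_⟩
    ext u
    constructor
    · rintro ⟨n, _, rfl⟩
      refine ⟨n, ?_⟩
      rw [himg]
    · rintro ⟨n, rfl⟩
      refine ⟨n, trivial, ?_⟩
      rw [himg]

/-- the stage of an atom -/
def Atom.st : Atom I K W → WithBot W
  | .coh α _ _ _ => α
  | .el α _ _ => α
  | .pr α _ _ _ _ _ _ => α

@[simp] theorem st_coh (α : WithBot W) (ξ : K) (j : ℕ) (b : Bool) :
    (Atom.coh α ξ j b : Atom I K W).st = α := rfl

@[simp] theorem st_el (α : W) (c : Knd I K) (y : Elt K) :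
    (Atom.el α c y : Atom I K W).st = α := rfl

@[simp] theorem st_pr (α : W) (c : Knd I K) (m : ℕ) (on : ℕ → Prop) (len : ℕ → ℕ)
    (sub : (n : ℕ) → Fin (len n) → Atom I K W) (val : ℕ → Elt K) :
    (Atom.pr α c m on len sub val : Atom I K W).st = α := rfl

/-- the coordinate of an atom -/
def Atom.crd : Atom I K W → (WithBot W × K × ℕ) ⊕ (W × Knd I K)
  | .coh α ξ j _ => Sum.inl (α, ξ, j)
  | .el α c _ => Sum.inr (α, c)
  | .pr α c _ _ _ _ _ => Sum.inr (α, c)

/-- the atom is not a promise -/
def Atom.IsFact : Atom I K W → Prop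
  | .coh _ _ _ _ => True
  | .el _ _ _ => True
  | .pr _ _ _ _ _ _ _ => False

/-- `y` is allowed as an element of a generic set of kind `c` -/
def Ok (S : I → Set K) : Knd I K → Elt K → Prop
  | (_, none), y => y.2 = ∅
  | (i, some e), y => y.1 = 0 ∧ Function.Injective e ∧ (∀ t, e t ∈ S i) ∧
      (∀ u ∈ y.2, u.1 ∈ Set.range e) ∧ ∃ t, (e t, false) ∈ y.2

/-- `y` is exempt from promises with parameter `m` -/
def Ex : Knd I K → ℕ → Elt K → Prop
  | (_, none), m, y => y.1 < m
  | (_, some e), m, y => ∃ t < m, (e t, false) ∈ y.2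

/-- `y` is covered by `y'` -/
def Cov : Knd I K → Elt K → Elt K → Prop
  | (_, none), y, y' => y'.1 = y.1
  | (_, some _), y, y' => y'.2 ⊆ y.2

/-- valid conditions; `A α c` is the set of the names allowed in promises with index `(α, c)` -/
structure Valid (S : I → Set K) (A : W → Knd I K → Set (Name I K W)) (p : Cond I K W) :
    Prop where
  coh : ∀ α ξ j, Atom.coh α ξ j true ∈ p → Atom.coh α ξ j false ∉ p
  pr : ∀ α c m on len sub val, Atom.pr α c m on len sub val ∈ p → nmOf on len sub val ∈ A α c
  ok : ∀ α c y, Atom.el α c y ∈ p → Ok S c y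
  sat : ∀ α c y m on len sub val, Atom.el α c y ∈ p → Atom.pr α c m on len sub val ∈ p →
    Ex c m y ∨ ∃ u ∈ nmOf on len sub val, u.1 ⊆ p ∧ Cov c y u.2

theorem valid_empty (S : I → Set K) (A : W → Knd I K → Set (Name I K W)) :
    Valid S A ∅ := by
  constructor <;> simp

/-- all atoms are of stage less than `α` -/
def Below [LT W] (α : WithBot W) (p : Cond I K W) : Prop := ∀ a ∈ p, a.st < α

end Pool.Agent.KS6_46.Sp
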