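import Pool.Agent.KS6_46.Sp.Forced

/-!
# Cardinal arithmetic
-/

set_option autoImplicit false

namespace Pool.Agent.KS6_46.Sp

open Classical Cardinal Pool.Agent.Helper669.Forcing Pool.Agent.W684.FM

theorem bdd_of {D : Type} {c : Cardinal.{0}} (hD : #D = c) (hc : ℵ₀ ≤ c) :
    Sp.Bdd D (Order.succ c).ord.ToType := by
  subst hD
  have : Infinite D := Cardinal.infinite_iff.2 hc
  exact bdd_succ D

theorem Bdd.of_le {D D' W : Type} [LT W] (h : #D' ≤ #D) (hW : Sp.Bdd D W) : Sp.Bdd D' W :=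
  fun L hL => hW L (hL.trans h)

theorem succ_pow {c : Cardinal.{0}} (hc : ℵ₀ ≤ c) (h : c ^ ℵ₀ = c) :
    Order.succ c ^ ℵ₀ = Order.succ c := by
  apply le_antisymm
  · let Z := (Order.succ c).ord.ToType
    have hZ : #Z = Order.succ c := mk_ord_toType _
    have hb : Sp.Bdd c.out Z := bdd_of (mk_out c) hc
    have h1 : (Order.succ c) ^ ℵ₀ = #(ℕ → Z) := by
      rw [← hZ, ← mk_nat, Cardinal.power_def]
    have h2 : (Set.univ : Set (ℕ → Z)) ⊆ ⋃ a : Z, {f | ∀ n, f n < a} := by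
      intro f _
      obtain ⟨a, ha⟩ := hb (Set.range f) (by
        rw [mk_out]
        exact (Cardinal.le_aleph0_iff_set_countable.2 (Set.countable_range f)).trans hc)
      exact Set.mem_iUnion.2 ⟨a, fun n => ha _ ⟨n, rfl⟩⟩
    rw [h1, ← Cardinal.mk_univ]
    refine (Cardinal.mk_le_mk_of_subset h2).trans ((Cardinal.mk_iUnion_le _).trans ?_)
    have h3 : ∀ a : Z, #{f : ℕ → Z | ∀ n, f n < a} ≤ c := by
      intro a
      have h4 : #{f : ℕ → Z | ∀ n, f n < a} ≤ #(ℕ → Set.Iio a) := by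
        refine Cardinal.mk_le_of_injective (f := fun f n => ⟨f.1 n, f.2 n⟩) ?_
        intro f g hfg
        ext n
        exact congrArg Subtype.val (congrFun hfg n)
      refine h4.trans ?_
      rw [← Cardinal.power_def, mk_nat]
      have h5 : #(Set.Iio a) ≤ c := Order.lt_succ_iff.1 (Cardinal.mk_Iio_toType_ord_lt a)
      calc #(Set.Iio a) ^ ℵ₀ ≤ c ^ ℵ₀ := Cardinal.power_le_power_right h5
        _ = c := h
    calc #Z * _ ≤ Order.succ c * Order.succ c := by
          rw [hZ]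
          exact mul_le_mul' le_rfl (ciSup_le' fun a => (h3 a).trans (Order.le_succ c))
      _ = Order.succ c := Cardinal.mul_eq_self (hc.trans (Order.le_succ c))
  · exact Cardinal.self_le_power _ one_le_aleph0

/-- the cardinals -/
noncomputable def cc : ℕ → Cardinal.{0}
  | 0 => 𝔠
  | k + 1 => Order.succ (cc k)

theorem aleph0_le_cc (k : ℕ) : ℵ₀ ≤ cc k := by
  induction k with
  | zero => exact Cardinal.aleph0_le_continuum
  | succ k ih => exact ih.trans (Order.le_succ _)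

theorem cc_pow (k : ℕ) : cc k ^ ℵ₀ = cc k := by
  induction k with
  | zero => exact Cardinal.continuum_power_aleph0
  | succ k ih => exact succ_pow (aleph0_le_cc k) ih

theorem cc_lt (k : ℕ) : cc k < cc (k + 1) := Order.lt_succ _

theorem cc_mono {k l : ℕ} (h : k ≤ l) : cc k ≤ cc l := by
  induction h with
  | refl => exact le_rfl
  | step _ ih => exact ih.trans (Order.le_succ _)

/-- the well-ordered sets -/
abbrev YY (k : ℕ) : Type := (cc k).ord.ToType

theorem mk_YY (k : ℕ) : #(YY k) = cc k := mk_ord_toType _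

theorem chain_YY (i : ℕ) (a : YY (i + 1)) :
    ∃ f : {b : YY (i + 1) // b < a} → YY i, Function.Injective f := by
  have h : #(Set.Iio a) ≤ #(YY i) := by
    rw [mk_YY]
    exact Order.lt_succ_iff.1 (Cardinal.mk_Iio_toType_ord_lt a)
  obtain ⟨e⟩ := h
  exact ⟨fun b => e b, e.injective⟩

theorem inf_YY : ∃ f : ℕ → YY 0, Function.Injective f := by
  have : Infinite (YY 0) := Cardinal.infinite_iff.2 (by rw [mk_YY]; exact aleph0_le_cc 0)
  exact ⟨_, (Infinite.natEmbedding (YY 0)).injective⟩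

theorem inj_forced {P : Type} [Preorder P] {X Z : Type} (f : X → Z)
    (hf : Function.Injective f) (p : P) : p ∈ InjN P X Z := by
  have hm : ∀ (h : Prop) (q : P), q ∈ meets {_r : P | h} ↔ h := by
    intro h q
    constructor
    · intro hq
      obtain ⟨_, _, _, hs, _⟩ := hq q le_rfl
      exact hs
    · intro hh
      exact meets_of_mem hh
  refine mem_fex_of_mem (fun x z => {_r | f x = z}) (down_fand (down_IsFun _) (down_IsInj _))
    ⟨⟨fun x => mem_fex_of_mem (f x) (down_meets _) ((hm _ _).2 rfl), ?_⟩, ?_⟩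
  · intro x z z'
    refine mem_fimp.2 fun q _ h => ⟨q, le_rfl, ?_⟩
    exact ((hm _ _).1 h.1).symm.trans ((hm _ _).1 h.2)
  · intro x x' z
    refine mem_fimp.2 fun q _ h => ⟨q, le_rfl, ?_⟩
    exact hf (((hm _ _).1 h.1).trans ((hm _ _).1 h.2).symm)

section Size

variable {κ : Cardinal.{0}}

theorem pow_fun_le {X : Type} (hκ : κ ^ ℵ₀ = κ) (hX : #X ≤ κ) : #(ℕ → X) ≤ κ := by
  rw [← Cardinal.power_def, mk_nat]
  calc #X ^ ℵ₀ ≤ κ ^ ℵ₀ := Cardinal.power_le_power_right hX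
    _ = κ := hκ

theorem prod_le {X Z : Type} (hκ0 : ℵ₀ ≤ κ) (hX : #X ≤ κ) (hZ : #Z ≤ κ) : #(X × Z) ≤ κ := by
  rw [Cardinal.mk_prod, Cardinal.lift_id, Cardinal.lift_id]
  calc #X * #Z ≤ κ * κ := mul_le_mul' hX hZ
    _ = κ := Cardinal.mul_eq_self hκ0

theorem sum_le {X Z : Type} (hκ0 : ℵ₀ ≤ κ) (hX : #X ≤ κ) (hZ : #Z ≤ κ) : #(X ⊕ Z) ≤ κ := by
  rw [Cardinal.mk_sum, Cardinal.lift_id, Cardinal.lift_id]
  calc #X + #Z ≤ κ + κ := add_le_add hX hZ
    _ = κ := Cardinal.add_eq_self hκ0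

theorem option_le {X : Type} (hκ0 : ℵ₀ ≤ κ) (hX : #X ≤ κ) : #(Option X) ≤ κ := by
  rw [Cardinal.mk_option]
  calc #X + 1 ≤ κ + κ := add_le_add hX (one_le_aleph0.trans hκ0)
    _ = κ := Cardinal.add_eq_self hκ0

theorem finset_le {X : Type} (hκ0 : ℵ₀ ≤ κ) (hX : #X ≤ κ) : #(Finset X) ≤ κ := by
  rw [← mk_out κ] at hX hκ0
  obtain ⟨e⟩ := hX
  have : Infinite κ.out := Cardinal.infinite_iff.2 hκ0
  have h1 := Cardinal.mk_le_of_injective (Finset.map_injective e)
  rwa [Cardinal.mk_finset_of_infinite κ.out, mk_out] at h1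

variable {I K W : Type}

/-- labels for atoms -/
abbrev Lab (I K W : Type) : Type :=
  (WithBot W × K × ℕ × Bool) ⊕ ((W × Knd I K × Elt K) ⊕
    (W × Knd I K × ℕ × (ℕ → Prop) × (ℕ → ℕ) × (ℕ → Elt K)))

/-- arities of labels -/
abbrev Ar : Lab I K W → Type
  | .inl _ => Empty
  | .inr (.inl _) => Empty
  | .inr (.inr (_, _, _, _, len, _)) => Σ n, Fin (len n)

/-- the encoding of atoms -/
def enc : Atom I K W → WType (Ar (I := I) (K := K) (W := W))
  | .coh α ξ j b => ⟨.inl (α, ξ, j, b), fun x => x.elim⟩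
  | .el α c y => ⟨.inr (.inl (α, c, y)), fun x => x.elim⟩
  | .pr α c m on len sub val =>
      ⟨.inr (.inr (α, c, m, on, len, val)), fun x => enc (sub x.1 x.2)⟩

theorem enc_injective : Function.Injective (enc (I := I) (K := K) (W := W)) := by
  intro a
  induction a with
  | coh α ξ j b =>
    intro a' h
    cases a' with
    | coh α' ξ' j' b' =>
      simp only [enc, WType.mk.injEq, Sum.inl.injEq, Prod.mk.injEq] at h
      obtain ⟨⟨rfl, rfl, rfl, rfl⟩, _⟩ := h
      rfl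
    | el α' c' y' => simp [enc] at h
    | pr α' c' m' on' len' sub' val' => simp [enc] at h
  | el α c y =>
    intro a' h
    cases a' with
    | coh α' ξ' j' b' => simp [enc] at h
    | el α' c' y' =>
      simp only [enc, WType.mk.injEq, Sum.inr.injEq, Sum.inl.injEq, Prod.mk.injEq] at h
      obtain ⟨⟨rfl, rfl, rfl⟩, _⟩ := h
      rfl
    | pr α' c' m' on' len' sub' val' => simp [enc] at h
  | pr α c m on len sub val ih =>
    intro a' h
    cases a' with
    | coh α' ξ' j' b' => simp [enc] at h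
    | el α' c' y' => simp [enc] at h
    | pr α' c' m' on' len' sub' val' =>
      simp only [enc, WType.mk.injEq, Sum.inr.injEq, Prod.mk.injEq] at h
      obtain ⟨⟨rfl, rfl, rfl, rfl, rfl, rfl⟩, h⟩ := h
      have h1 : sub = sub' := by
        funext n i
        exact ih n i (congrFun (eq_of_heq h) ⟨n, i⟩)
      rw [h1]

theorem mk_atom_le (hκ0 : ℵ₀ ≤ κ) (hκ : κ ^ ℵ₀ = κ) (hI : #I ≤ κ) (hK : #K ≤ κ) (hW : #W ≤ κ) :
    #(Atom I K W) ≤ κ := by
  refine (Cardinal.mk_le_of_injective enc_injective).trans (WType.cardinalMk_le_of_le ?_)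
  have hnat : #ℕ ≤ κ := by rw [mk_nat]; exact hκ0
  have hprop : #Prop ≤ κ := (by simp : #Prop ≤ ℵ₀).trans hκ0
  have hbool : #Bool ≤ κ := (by simp : #Bool ≤ ℵ₀).trans hκ0
  have hknd : #(Knd I K) ≤ κ := prod_le hκ0 hI (option_le hκ0 (pow_fun_le hκ hK))
  have helt : #(Elt K) ≤ κ := prod_le hκ0 hnat (finset_le hκ0 (prod_le hκ0 hK hbool))
  have hlab : #(Lab I K W) ≤ κ :=
    sum_le hκ0 (prod_le hκ0 (option_le hκ0 hW) (prod_le hκ0 hK (prod_le hκ0 hnat hbool)))
      (sum_le hκ0 (prod_le hκ0 hW (prod_le hκ0 hknd helt))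
        (prod_le hκ0 hW (prod_le hκ0 hknd (prod_le hκ0 hnat (prod_le hκ0 (pow_fun_le hκ hprop)
          (prod_le hκ0 (pow_fun_le hκ hnat) (pow_fun_le hκ helt)))))))
  have har : ∀ a : Lab I K W, κ ^ #(Ar a) ≤ κ := by
    intro a
    have hc : #(Ar a) ≤ ℵ₀ := by
      rcases a with a | a | ⟨_, _, _, _, len, _⟩
      · simp [Ar]
      · simp [Ar]
      · exact Cardinal.mk_le_aleph0
    calc κ ^ #(Ar a) ≤ κ ^ ℵ₀ :=
          Cardinal.power_le_power_left (aleph0_pos.trans_le hκ0).ne' hc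
      _ = κ := hκ
  calc Cardinal.sum (fun a : Lab I K W => κ ^ #(Ar a)) ≤ Cardinal.sum fun _ : Lab I K W => κ :=
        Cardinal.sum_le_sum _ _ har
    _ = #(Lab I K W) * κ := by rw [Cardinal.sum_const']
    _ ≤ κ * κ := mul_le_mul' hlab le_rfl
    _ = κ := Cardinal.mul_eq_self hκ0

theorem exists_surj {X Z : Type} [Nonempty Z] (h : #Z ≤ #X) :
    ∃ f : X → Z, Function.Surjective f := by
  obtain ⟨e⟩ := h
  exact ⟨Function.invFun e, Function.invFun_surjective e.injective⟩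

end Size

end Pool.Agent.KS6_46.Sp
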