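import Pool.Agent.KS6_46.Sp.Atoms
import Pool.Graph.R_seed8.Helper126.Fact

/-!
# The countable chain condition, restriction and amalgamation
-/

set_option autoImplicit false

namespace Pool.Agent.KS6_46.Sp

open Classical

variable {I K W : Type} {S : I → Set K} {A : W → Knd I K → Set (Name I K W)}

/-- two valid conditions which agree on the facts with common coordinates have a valid union -/
theorem valid_union {p q : Cond I K W} (hp : Valid S A p) (hq : Valid S A q)
    (h1 : ∀ a ∈ p, a.IsFact → (∃ b ∈ q, b.crd = a.crd) → a ∈ q)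
    (h2 : ∀ a ∈ q, a.IsFact → (∃ b ∈ p, b.crd = a.crd) → a ∈ p) : Valid S A (p ∪ q) := by
  refine ⟨?_, ?_, ?_, ?_⟩
  · intro α ξ j ht hf
    rcases Finset.mem_union.1 ht with h | h <;> rcases Finset.mem_union.1 hf with h' | h'
    · exact hp.coh _ _ _ h h'
    · exact hq.coh _ _ _ (h1 _ h trivial ⟨_, h', rfl⟩) h'
    · exact hp.coh _ _ _ (h2 _ h trivial ⟨_, h', rfl⟩) h'
    · exact hq.coh _ _ _ h h'
  · intro α c m on len sub val h
    rcases Finset.mem_union.1 h with h | h
    · exact hp.pr _ _ _ _ _ _ _ h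
    · exact hq.pr _ _ _ _ _ _ _ h
  · intro α c y h
    rcases Finset.mem_union.1 h with h | h
    · exact hp.ok _ _ _ h
    · exact hq.ok _ _ _ h
  · intro α c y m on len sub val h h'
    rcases Finset.mem_union.1 h' with h' | h'
    · have h : Atom.el α c y ∈ p := by
        rcases Finset.mem_union.1 h with h | h
        · exact h
        · exact h2 _ h trivial ⟨_, h', rfl⟩
      rcases hp.sat _ _ _ _ _ _ _ _ h h' with h3 | ⟨u, hu, h3, h4⟩
      · exact Or.inl h3
      · exact Or.inr ⟨u, hu, h3.trans Finset.subset_union_left, h4⟩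
    · have h : Atom.el α c y ∈ q := by
        rcases Finset.mem_union.1 h with h | h
        · exact h1 _ h trivial ⟨_, h', rfl⟩
        · exact h
      rcases hq.sat _ _ _ _ _ _ _ _ h h' with h3 | ⟨u, hu, h3, h4⟩
      · exact Or.inl h3
      · exact Or.inr ⟨u, hu, h3.trans Finset.subset_union_right, h4⟩

theorem countable_ok (c : Knd I K) : {y : Elt K | Ok S c y}.Countable := by
  obtain ⟨i, _ | e⟩ := c
  · refine (Set.countable_range fun n : ℕ => ((n, ∅) : Elt K)).mono ?_
    rintro ⟨n, y⟩ hy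
    refine ⟨n, ?_⟩
    have : y = ∅ := hy
    rw [this]
  · let h : ℕ × Bool → K × Bool := fun u => (e u.1, u.2)
    let g : Finset (ℕ × Bool) → Elt K := fun s => (0, s.image h)
    refine (Set.countable_range g).mono ?_
    rintro ⟨n, y⟩ ⟨hn, he, _, hy, _⟩
    simp only at hn hy
    subst hn
    have hinj : Set.InjOn h (h ⁻¹' (y : Set (K × Bool))) := by
      rintro ⟨a, b⟩ _ ⟨a', b'⟩ _ hab
      simp only [h, Prod.mk.injEq] at hab
      rw [he hab.1, hab.2]
    refine ⟨y.preimage h hinj, ?_⟩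
    simp only [g, Prod.mk.injEq, true_and]
    ext u
    rw [Finset.mem_image]
    constructor
    · rintro ⟨v, hv, rfl⟩
      rwa [Finset.mem_preimage] at hv
    · intro hu
      obtain ⟨t, ht⟩ := hy u hu
      have h1 : h (t, u.2) = u := by simp only [h, ht]
      refine ⟨(t, u.2), ?_, h1⟩
      rw [Finset.mem_preimage, h1]
      exact hu

/-- the facts with a given coordinate -/
theorem countable_facts (r : (WithBot W × K × ℕ) ⊕ (W × Knd I K)) :
    {a : Atom I K W | a.IsFact ∧ a.crd = r ∧ ∀ α c y, a = .el α c y → Ok S c y}.Countable := by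
  rcases r with ⟨α, ξ, j⟩ | ⟨α, c⟩
  · refine (Set.countable_range fun b : Bool => (Atom.coh α ξ j b : Atom I K W)).mono ?_
    rintro a ⟨h1, h2, h3⟩
    cases a with
    | coh α' ξ' j' b =>
      simp only [Atom.crd, Sum.inl.injEq, Prod.mk.injEq] at h2
      obtain ⟨rfl, rfl, rfl⟩ := h2
      exact ⟨b, rfl⟩
    | el α' c' y => simp [Atom.crd] at h2
    | pr α' c' m on len sub val => simp [Atom.crd] at h2
  · refine ((countable_ok (S := S) c).image fun y => (Atom.el α c y : Atom I K W)).mono ?_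
    rintro a ⟨h1, h2, h3⟩
    cases a with
    | coh α' ξ' j' b => simp [Atom.crd] at h2
    | el α' c' y =>
      simp only [Atom.crd, Sum.inr.injEq, Prod.mk.injEq] at h2
      obtain ⟨rfl, rfl⟩ := h2
      exact ⟨y, h3 _ _ _ rfl, rfl⟩
    | pr α' c' m on len sub val => exact absurd h1 id

/-- the countable chain condition -/
theorem ccc_valid (B : Set (Cond I K W)) (hB : ∀ p ∈ B, Valid S A p)
    (hanti : ∀ p ∈ B, ∀ q ∈ B, p ≠ q → ¬ Valid S A (p ∪ q)) : B.Countable := by
  by_contra hunc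
  obtain ⟨B', r, hB', hunc', hr, hd⟩ := Helper126.delta_system
    (fun p : Cond I K W => p.image Atom.crd) B hunc
  let T : Set (Atom I K W) := ⋃ c ∈ r, {a | a.IsFact ∧ a.crd = c ∧ ∀ α c y, a = .el α c y → Ok S c y}
  have hT : T.Countable := r.countable_toSet.biUnion fun c _ => countable_facts c
  have : Countable T := hT.to_subtype
  let f : Cond I K W → Finset T := fun p => Finset.univ.filter (fun _ => True) |>.image fun
    (x : {x // x ∈ p.attach.filter fun a => (a.1 : Atom I K W) ∈ T}) =>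
      (⟨x.1.1, (Finset.mem_filter.1 x.2).2⟩ : T)
  have hf : ∀ p (t : T), t ∈ f p ↔ t.1 ∈ p := by
    intro p t
    simp only [f, Finset.mem_image, Finset.mem_filter, Finset.mem_univ, true_and]
    constructor
    · rintro ⟨x, rfl⟩
      exact x.1.2
    · intro h
      exact ⟨⟨⟨t.1, h⟩, Finset.mem_filter.2 ⟨Finset.mem_attach _ _, t.2⟩⟩, rfl⟩
  obtain ⟨s, hs⟩ := Helper126.uncountable_fiber f B' hunc'
  obtain ⟨p, hp, q, hq, hne⟩ : ∃ p ∈ {i ∈ B' | f i = s}, ∃ q ∈ {i ∈ B' | f i = s}, p ≠ q := by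
    by_contra hcon
    push Not at hcon
    apply hs
    exact (Set.Subsingleton.countable fun p hp q hq => hcon p hp q hq)
  have key : ∀ p ∈ {i ∈ B' | f i = s}, ∀ q ∈ {i ∈ B' | f i = s}, p ≠ q →
      ∀ a ∈ p, a.IsFact → (∃ b ∈ q, b.crd = a.crd) → a ∈ q := by
    rintro p ⟨hp, hps⟩ q ⟨hq, hqs⟩ hne a ha hfa ⟨b, hb, hba⟩
    have h1 : a.crd ∈ r := hd p hp q hq hne _ (Finset.mem_image_of_mem _ ha)
      (hba ▸ Finset.mem_image_of_mem _ hb)
    have h2 : a ∈ T := by
      refine Set.mem_biUnion h1 ⟨hfa, rfl, ?_⟩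
      rintro α c y rfl
      exact (hB p (hB' hp)).ok _ _ _ ha
    have h3 : (⟨a, h2⟩ : T) ∈ f p := (hf _ _).2 ha
    rw [hps, ← hqs] at h3
    exact (hf _ _).1 h3
  exact hanti p (hB' hp.1) q (hB' hq.1) hne
    (valid_union (hB p (hB' hp.1)) (hB q (hB' hq.1)) (key p hp q hq hne) (key q hq p hp hne.symm))

section

variable [LinearOrder W]

/-- restriction of a condition to the stages less than `α` -/
noncomputable def rst (α : WithBot W) (p : Cond I K W) : Cond I K W := p.filter fun a => a.st < α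

theorem mem_rst {α : WithBot W} {p : Cond I K W} {a : Atom I K W} :
    a ∈ rst α p ↔ a ∈ p ∧ a.st < α := by simp [rst]

theorem rst_subset (α : WithBot W) (p : Cond I K W) : rst α p ⊆ p := Finset.filter_subset _ _

theorem rst_mono {α : WithBot W} {p q : Cond I K W} (h : p ⊆ q) : rst α p ⊆ rst α q :=
  fun a ha => mem_rst.2 ⟨h (mem_rst.1 ha).1, (mem_rst.1 ha).2⟩

theorem below_rst (α : WithBot W) (p : Cond I K W) : Below α (rst α p) :=
  fun _ ha => (mem_rst.1 ha).2

theorem subset_rst {α : WithBot W} {p q : Cond I K W} (h : p ⊆ q) (hp : Below α p) :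
    p ⊆ rst α q := fun a ha => mem_rst.2 ⟨h ha, hp a ha⟩

theorem Below.union {α : WithBot W} {p q : Cond I K W} (hp : Below α p) (hq : Below α q) :
    Below α (p ∪ q) := by
  intro a ha
  rcases Finset.mem_union.1 ha with h | h
  · exact hp a h
  · exact hq a h

theorem Below.mono {α β : WithBot W} (h : α ≤ β) {p : Cond I K W} (hp : Below α p) :
    Below β p := fun a ha => (hp a ha).trans_le h

/-- the names allowed at stage `α` refer to earlier stages only -/
def Proper (A : W → Knd I K → Set (Name I K W)) : Prop :=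
  ∀ α c, ∀ N ∈ A α c, ∀ u ∈ N, Below (α : WithBot W) u.1

theorem valid_rst (hA : Proper A) (α : WithBot W) {p : Cond I K W} (hp : Valid S A p) :
    Valid S A (rst α p) := by
  refine ⟨?_, ?_, ?_, ?_⟩
  · intro β ξ j h1 h2
    exact hp.coh _ _ _ (mem_rst.1 h1).1 (mem_rst.1 h2).1
  · intro β c m on len sub val h
    exact hp.pr _ _ _ _ _ _ _ (mem_rst.1 h).1
  · intro β c y h
    exact hp.ok _ _ _ (mem_rst.1 h).1
  · intro β c y m on len sub val h h'
    rcases hp.sat _ _ _ _ _ _ _ _ (mem_rst.1 h).1 (mem_rst.1 h').1 with h3 | ⟨u, hu, h3, h4⟩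
    · exact Or.inl h3
    · refine Or.inr ⟨u, hu, ?_, h4⟩
      have h5 := hA β c _ (hp.pr _ _ _ _ _ _ _ (mem_rst.1 h').1) u hu
      exact subset_rst h3 (h5.mono (mem_rst.1 h').2.le)

/-- amalgamation over the stages less than `α` -/
theorem amalg {α : WithBot W} {p q : Cond I K W} (hp : Valid S A p) (hq : Valid S A q)
    (hqα : Below α q) (h : rst α p ⊆ q) : Valid S A (q ∪ p) := by
  have h1 : ∀ a ∈ p, a.st < α → a ∈ q := fun a ha hα => h (mem_rst.2 ⟨ha, hα⟩)
  have h2 : ∀ a ∈ q ∪ p, a.st < α → a ∈ q := by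
    intro a ha hα
    rcases Finset.mem_union.1 ha with h | h
    · exact h
    · exact h1 a h hα
  have h3 : ∀ a ∈ q ∪ p, ¬ a.st < α → a ∈ p := by
    intro a ha hα
    rcases Finset.mem_union.1 ha with h | h
    · exact absurd (hqα a h) hα
    · exact h
  refine ⟨?_, ?_, ?_, ?_⟩
  · intro β ξ j ht hf
    by_cases hβ : β < α
    · exact hq.coh _ _ _ (h2 _ ht hβ) (h2 _ hf hβ)
    · exact hp.coh _ _ _ (h3 _ ht hβ) (h3 _ hf hβ)
  · intro α c m on len sub val h
    rcases Finset.mem_union.1 h with h | h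
    · exact hq.pr _ _ _ _ _ _ _ h
    · exact hp.pr _ _ _ _ _ _ _ h
  · intro α c y h
    rcases Finset.mem_union.1 h with h | h
    · exact hq.ok _ _ _ h
    · exact hp.ok _ _ _ h
  · intro β c y m on len sub val h h'
    by_cases hβ : (β : WithBot W) < α
    · rcases hq.sat _ _ _ _ _ _ _ _ (h2 _ h hβ) (h2 _ h' hβ) with h4 | ⟨u, hu, h4, h5⟩
      · exact Or.inl h4
      · exact Or.inr ⟨u, hu, h4.trans Finset.subset_union_left, h5⟩
    · rcases hp.sat _ _ _ _ _ _ _ _ (h3 _ h hβ) (h3 _ h' hβ) with h4 | ⟨u, hu, h4, h5⟩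
      · exact Or.inl h4
      · exact Or.inr ⟨u, hu, h4.trans Finset.subset_union_right, h5⟩

end

end Pool.Agent.KS6_46.Sp
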