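import Pool.Agent.KS6_46.Sp.Fip

/-!
# Deciding names by the maximal families
-/

set_option autoImplicit false

namespace Pool.Agent.KS6_46.Sp

open Classical

variable {I K W : Type} {S : I → Set K} [LinearOrder W] [WellFoundedLT W]

theorem ccc_all : CCCs {p : Cond I K W | Valid S (Al S) p} := by
  intro B hB hanti
  refine ccc_valid B hB fun p hp q hq hne hv => hanti p hp q hq hne
    ⟨p ∪ q, hv, Finset.subset_union_left, Finset.subset_union_right⟩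

theorem ccc_PS (α : W) : CCCs (PS S α : Set (Cond I K W)) := by
  intro B hB hanti
  refine ccc_valid B (fun p hp => (hB hp).1) fun p hp q hq hne hv => hanti p hp q hq hne
    ⟨p ∪ q, ⟨hv, (hB hp).2.union (hB hq).2⟩, Finset.subset_union_left,
      Finset.subset_union_right⟩

/-- a countable predense set of conditions incompatible with a given one -/
theorem exists_inc {α : W} (p : Cond I K W) :
    ∃ A ⊆ PS S α, A.Countable ∧ (∀ s ∈ A, ¬ ∃ r ∈ PS S α, s ⊆ r ∧ p ⊆ r) ∧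
      ∀ p₁ ∈ PS S α, (¬ ∃ r ∈ PS S α, p₁ ⊆ r ∧ p ⊆ r) → ∃ s ∈ A, ∃ r ∈ PS S α, p₁ ⊆ r ∧ s ⊆ r := by
  obtain ⟨A, h1, h2, _, h3⟩ := exists_pre (ccc_PS (S := S) (I := I) (K := K) α)
    {s | s ∈ PS S α ∧ ¬ ∃ r ∈ PS S α, s ⊆ r ∧ p ⊆ r} (fun s hs => hs.1)
  exact ⟨A, fun s hs => (h1 hs).1, h2, fun s hs => (h1 hs).2, fun p₁ hp₁ h => h3 p₁ ⟨hp₁, h⟩⟩

theorem mem_FD {α : W} {i : I} {N : Name I K W} (hN : PN α N)
    (h : ∀ L : Finset (Name I K W), (L : Set (Name I K W)) ⊆ FD S α i → ∀ τ, Gd S i τ →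
      ∀ m : ℕ, ∀ p ∈ PS S α, ∃ q ∈ PS S α, p ⊆ q ∧
        ∃ j, m ≤ j ∧ lits ⊥ j τ ⊆ q ∧ SfD q N j ∧ ∀ N' ∈ L, SfD q N' j) : N ∈ FD S α i := by
  apply (isMax_FD α i).2.2
  intro L hL
  have h1 := (isMax_FD (S := S) α i).2.1 L hL
  refine ⟨?_, fun τ hτ m p hp => ?_⟩
  · intro N' hN'
    rcases Finset.mem_insert.1 hN' with rfl | h2
    · exact hN
    · exact h1.1 _ h2
  · obtain ⟨q, hq, hpq, j, hj, hl, h3, h4⟩ := h L hL τ hτ m p hp
    refine ⟨q, hq, hpq, j, hj, hl, fun N' hN' => ?_⟩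
    rcases Finset.mem_insert.1 hN' with rfl | h2
    · exact h3
    · exact h4 _ h2

theorem mem_FO {α : W} {i : I} {N : Name I K W} (hN : PN α N)
    (hN' : ∀ u ∈ N, ∀ v ∈ u.2.2, v.1 ∈ S i)
    (h : ∀ L : Finset (Name I K W), (L : Set (Name I K W)) ⊆ FO S α i →
      ∀ a : Finset K, ∀ p ∈ PS S α, ∃ q ∈ PS S α, p ⊆ q ∧
        ∃ x : K → Bool, (∀ ξ ∈ a, x ξ = true) ∧ SfO q N x ∧ ∀ N' ∈ L, SfO q N' x) :
    N ∈ FO S α i := by
  apply (isMax_FO α i).2.2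
  intro L hL
  have h1 := (isMax_FO (S := S) α i).2.1 L hL
  refine ⟨?_, fun a p hp => ?_⟩
  · intro N' hN''
    rcases Finset.mem_insert.1 hN'' with rfl | h2
    · exact ⟨hN, hN'⟩
    · exact h1.1 _ h2
  · obtain ⟨q, hq, hpq, x, hx, h3, h4⟩ := h L hL a p hp
    refine ⟨q, hq, hpq, x, hx, fun N' hN' => ?_⟩
    rcases Finset.mem_insert.1 hN' with rfl | h2
    · exact h3
    · exact h4 _ h2

theorem FD_good {α : W} {i : I} {L : Finset (Name I K W)}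
    (hL : (L : Set (Name I K W)) ⊆ FD S α i) {τ : Finset (K × Bool)} (hτ : Gd S i τ) (m : ℕ)
    {p : Cond I K W} (hp : p ∈ PS S α) :
    ∃ q ∈ PS S α, p ⊆ q ∧ ∃ j, m ≤ j ∧ lits ⊥ j τ ⊆ q ∧ ∀ N ∈ L, SfD q N j :=
  ((isMax_FD α i).2.1 L hL).2 τ hτ m p hp

theorem FO_good {α : W} {i : I} {L : Finset (Name I K W)}
    (hL : (L : Set (Name I K W)) ⊆ FO S α i) (a : Finset K)
    {p : Cond I K W} (hp : p ∈ PS S α) :
    ∃ q ∈ PS S α, p ⊆ q ∧ ∃ x : K → Bool, (∀ ξ ∈ a, x ξ = true) ∧ ∀ N ∈ L, SfO q N x :=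
  ((isMax_FO α i).2.1 L hL).2 a p hp

/-- intersections -/
theorem exists_inter {α : W} {i : I} (L : Finset (Name I K W))
    (hL : (L : Set (Name I K W)) ⊆ FD S α i) (m₀ : ℕ) :
    ∃ Y ∈ FD S α i, ∀ r j, SfD r Y j → m₀ ≤ j ∧ ∀ N ∈ L, SfD r N j := by
  induction L using Finset.induction_on with
  | empty =>
    refine ⟨(fun j : ℕ => (∅, (j, ∅))) '' Set.Ici m₀, ?_, ?_⟩
    · refine mem_FD ⟨(Set.to_countable _).image _, ?_⟩ ?_
      · rintro _ ⟨j, _, rfl⟩ a ha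
        simp at ha
      · intro L' hL' τ hτ m p hp
        obtain ⟨q, hq, hpq, j, hj, hl, h⟩ := FD_good hL' hτ (max m m₀) hp
        exact ⟨q, hq, hpq, j, (le_max_left _ _).trans hj, hl,
          ⟨_, ⟨j, (le_max_right _ _).trans hj, rfl⟩, by simp, rfl⟩, h⟩
    · rintro r j ⟨_, ⟨j', hj', rfl⟩, _, rfl⟩
      exact ⟨hj', by simp⟩
  | insert N L _ ih =>
    rw [Finset.coe_insert, Set.insert_subset_iff] at hL
    obtain ⟨Y, hY, hY'⟩ := ih hL.2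
    have hpY : PN α Y := famD_pn S hY
    have hpN : PN α N := famD_pn S hL.1
    refine ⟨(fun w : (Cond I K W × Elt K) × (Cond I K W × Elt K) => (w.1.1 ∪ w.2.1, w.1.2)) ''
      {w | w.1 ∈ Y ∧ w.2 ∈ N ∧ w.1.2.1 = w.2.2.1}, mem_FD ⟨?_, ?_⟩ ?_, ?_⟩
    · refine Set.Countable.image ((hpY.1.prod hpN.1).mono ?_) _
      rintro w ⟨h1, h2, _⟩
      exact ⟨h1, h2⟩
    · rintro _ ⟨w, ⟨h1, h2, _⟩, rfl⟩
      exact (hpY.2 _ h1).union (hpN.2 _ h2)
    · intro L' hL' τ hτ m p hp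
      have h1 : ((insert Y (insert N L') : Finset (Name I K W)) : Set (Name I K W)) ⊆
          FD S α i := by
        rw [Finset.coe_insert, Finset.coe_insert]
        exact Set.insert_subset hY (Set.insert_subset hL.1 hL')
      obtain ⟨q, hq, hpq, j, hj, hl, h⟩ := FD_good h1 hτ m hp
      refine ⟨q, hq, hpq, j, hj, hl, ?_, fun N' hN' => h N' (Finset.mem_insert_of_mem
        (Finset.mem_insert_of_mem hN'))⟩
      obtain ⟨u, hu, hu1, hu2⟩ := h Y (Finset.mem_insert_self _ _)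
      obtain ⟨v, hv, hv1, hv2⟩ := h N (Finset.mem_insert_of_mem (Finset.mem_insert_self _ _))
      exact ⟨_, ⟨(u, v), ⟨hu, hv, hu2.trans hv2.symm⟩, rfl⟩, Finset.union_subset hu1 hv1, hu2⟩
    · rintro r j ⟨_, ⟨⟨u, v⟩, ⟨h1, h2, h3⟩, rfl⟩, h4, h5⟩
      obtain ⟨h6, h7⟩ := hY' r j ⟨u, h1, Finset.subset_union_left.trans h4, h5⟩
      refine ⟨h6, fun N' hN' => ?_⟩
      rcases Finset.mem_insert.1 hN' with rfl | h8
      · exact ⟨v, h2, Finset.subset_union_right.trans h4, h3.symm.trans h5⟩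
      · exact h7 _ h8

/-- `Y` decides `X` below `(q, τ)` -/
def Dec (S : I → Set K) (α : W) (X : Name I K W) (ε : Bool) (q : Cond I K W)
    (τ : Finset (K × Bool)) (Y : Name I K W) : Prop :=
  ∀ r ∈ PS S α, q ⊆ r → ∀ j, lits ⊥ j τ ⊆ r → SfD r Y j → (SfD r X j ↔ ε = true)

theorem exists_dec {α : W} {i : I} {X : Name I K W} (hX : PN α X) {p : Cond I K W}
    (hp : p ∈ PS S α) {τ : Finset (K × Bool)} (hτ : Gd S i τ) :
    ∃ q ∈ PS S α, p ⊆ q ∧ ∃ τ', Gd S i τ' ∧ τ ⊆ τ' ∧ ∃ ε, ∃ Y ∈ FD S α i, Dec S α X ε q τ' Y := by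
  obtain ⟨A, hA1, hA2, hA3, hA4⟩ := exists_inc (S := S) (α := α) p
  let X' : Name I K W := X ∪ (⋃ u ∈ τ, Set.range fun j : ℕ =>
      ({Atom.coh ⊥ u.1 j (!u.2)}, (j, ∅))) ∪ ⋃ s ∈ A, Set.range fun j : ℕ => (s, (j, ∅))
  have hX' : PN α X' := by
    refine ⟨(hX.1.union ?_).union ?_, ?_⟩
    · exact τ.countable_toSet.biUnion fun u _ => Set.countable_range _
    · exact hA2.biUnion fun s _ => Set.countable_range _
    · rintro v ((hv | hv) | hv)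
      · exact hX.2 v hv
      · simp only [Set.mem_iUnion] at hv
        obtain ⟨u, _, j, rfl⟩ := hv
        intro a ha
        rw [Finset.mem_singleton] at ha
        rw [ha]
        exact WithBot.bot_lt_coe _
      · simp only [Set.mem_iUnion] at hv
        obtain ⟨s, hs, j, rfl⟩ := hv
        exact (hA1 hs).2
  have hX1 : ∀ r j, SfD r X j → SfD r X' j := by
    rintro r j ⟨u, hu, h1, h2⟩
    exact ⟨u, Or.inl (Or.inl hu), h1, h2⟩
  have hX2 : ∀ (r : Cond I K W) (j : ℕ), ∀ u ∈ τ, Atom.coh ⊥ u.1 j (!u.2) ∈ r →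
      SfD r X' j := by
    intro r j u hu h
    refine ⟨({Atom.coh ⊥ u.1 j (!u.2)}, (j, ∅)), Or.inl (Or.inr ?_), ?_, rfl⟩
    · exact Set.mem_biUnion hu ⟨j, rfl⟩
    · exact Finset.singleton_subset_iff.2 h
  have hX3 : ∀ (r : Cond I K W) (j : ℕ), ∀ s ∈ A, s ⊆ r → SfD r X' j := by
    intro r j s hs h
    exact ⟨(s, (j, ∅)), Or.inr (Set.mem_biUnion hs ⟨j, rfl⟩), h, rfl⟩
  by_cases hmem : X' ∈ FD S α i
  · refine ⟨p, hp, subset_rfl, τ, hτ, subset_rfl, true, X', hmem, ?_⟩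
    intro r hr hpr j hlr hsf
    simp only [iff_true]
    obtain ⟨v, hv, h1, h2⟩ := hsf
    rcases hv with (hv | hv) | hv
    · exact ⟨v, hv, h1, h2⟩
    · exfalso
      simp only [Set.mem_iUnion] at hv
      obtain ⟨u, hu, j', rfl⟩ := hv
      simp only at h1 h2
      subst h2
      rw [Finset.singleton_subset_iff] at h1
      have h3 : Atom.coh ⊥ u.1 j' u.2 ∈ r := hlr (mem_lits.2 ⟨u, hu, rfl⟩)
      rcases hb : u.2 with _ | _
      · rw [hb] at h1 h3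
        exact hr.1.coh _ _ _ h1 h3
      · rw [hb] at h1 h3
        exact hr.1.coh _ _ _ h3 h1
    · exfalso
      simp only [Set.mem_iUnion] at hv
      obtain ⟨s, hs, j', rfl⟩ := hv
      exact hA3 s hs ⟨r, hr, h1, hpr⟩
  · have h0 : ¬ ∀ L : Finset (Name I K W), (L : Set (Name I K W)) ⊆ FD S α i → ∀ τ, Gd S i τ →
        ∀ m : ℕ, ∀ p ∈ PS S α, ∃ q ∈ PS S α, p ⊆ q ∧
        ∃ j, m ≤ j ∧ lits ⊥ j τ ⊆ q ∧ SfD q X' j ∧ ∀ N' ∈ L, SfD q N' j :=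
      fun h => hmem (mem_FD hX' h)
    push Not at h0
    obtain ⟨L, hL, τ₁, hτ₁, m₁, p₁, hp₁, h0⟩ := h0
    -- `h0` : no extension of `p₁` works
    have h0' : ∀ q ∈ PS S α, p₁ ⊆ q → ∀ j, m₁ ≤ j → lits ⊥ j τ₁ ⊆ q →
        (∀ N ∈ L, SfD q N j) → ¬ SfD q X' j := by
      intro q hq h1 j h2 h3 h4 h5
      obtain ⟨N, hN, h6⟩ := h0 q hq h1 j h2 h3 h5
      exact h6 (h4 N hN)
    have hcomp : ∃ r ∈ PS S α, p₁ ⊆ r ∧ p ⊆ r := by
      by_contra hcon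
      obtain ⟨s, hs, r, hr, h1, h2⟩ := hA4 p₁ hp₁ hcon
      obtain ⟨q, hq, hrq, j, hj, hl, h⟩ := FD_good hL hτ₁ m₁ hr
      exact h0' q hq (h1.trans hrq) j hj hl h (hX3 q j s hs (h2.trans hrq))
    obtain ⟨r, hr, hr1, hr2⟩ := hcomp
    have hcons : ∀ u ∈ τ, (u.1, !u.2) ∉ τ₁ := by
      intro u hu hu1
      obtain ⟨q, hq, hrq, j, hj, hl, h⟩ := FD_good hL hτ₁ m₁ hr
      refine h0' q hq (hr1.trans hrq) j hj hl h (hX2 q j u hu (hl ?_))
      exact mem_lits.2 ⟨_, hu1, rfl⟩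
    obtain ⟨Y, hY, hY'⟩ := exists_inter L hL m₁
    refine ⟨r, hr, hr2, τ ∪ τ₁, ⟨?_, ?_⟩, Finset.subset_union_left, false, Y, hY, ?_⟩
    · intro ξ ht hf
      rcases Finset.mem_union.1 ht with h1 | h1 <;> rcases Finset.mem_union.1 hf with h2 | h2
      · exact hτ.1 _ h1 h2
      · exact hcons _ h1 h2
      · exact hcons _ h2 h1
      · exact hτ₁.1 _ h1 h2
    · intro u hu
      rcases Finset.mem_union.1 hu with h1 | h1
      · exact hτ.2 _ h1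
      · exact hτ₁.2 _ h1
    · intro r' hr' hrr' j hl hsf
      obtain ⟨h1, h2⟩ := hY' r' j hsf
      simp only [Bool.false_eq_true, iff_false]
      intro h3
      exact h0' r' hr' (hr1.trans hrr') j h1 ((lits_mono Finset.subset_union_right).trans hl) h2
        (hX1 _ _ h3)

end Pool.Agent.KS6_46.Sp
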