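import Pool.Agent.KS6_46.Sp.Glue

/-!
# Each set of numbers is decided by one of the basic sets
-/

set_option autoImplicit false

namespace Pool.Agent.KS6_46.Sp

open Classical

variable {I K W : Type} {S : I → Set K}

/-- `r` puts `j` into the basic set with index `(α, i, e, b, m)` -/
def InB (α : W) (i : I) (e : ℕ → K) (b m j : ℕ) (r : Cond I K W) : Prop :=
  m ≤ j ∧ Atom.el α (i, none) (j, ∅) ∈ r ∧
    (∃ τ, Atom.el α (i, some e) (0, τ) ∈ r ∧ lits ⊥ j τ ⊆ r) ∧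
    ∀ t < b, Atom.coh ⊥ (e t) j true ∈ r

theorem InB.mono {α : W} {i : I} {e : ℕ → K} {b m j : ℕ} {r r' : Cond I K W}
    (h : InB α i e b m j r) (hr : r ⊆ r') : InB α i e b m j r' := by
  obtain ⟨h1, h2, ⟨τ, h3, h4⟩, h5⟩ := h
  exact ⟨h1, hr h2, ⟨τ, hr h3, h4.trans hr⟩, fun t ht => hr (h5 t ht)⟩

theorem exists_enum {T C : Set K} (hT : T.Infinite) (hC : C.Countable) (hCT : C ⊆ T) :
    ∃ e : ℕ → K, Function.Injective e ∧ (∀ t, e t ∈ T) ∧ C ⊆ Set.range e := by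
  let g := hT.natEmbedding
  let C' : Set K := C ∪ Set.range fun n => (g n : K)
  have hC' : C'.Countable := hC.union (Set.countable_range _)
  have hinf : C'.Infinite := by
    refine (Set.infinite_range_of_injective ?_).mono Set.subset_union_right
    intro a b hab
    exact g.injective (Subtype.ext hab)
  have : Countable C' := hC'.to_subtype
  have : Infinite C' := hinf.to_subtype
  obtain ⟨eq⟩ : Nonempty (ℕ ≃ C') := nonempty_equiv_of_countable
  refine ⟨fun n => (eq n : K), ?_, ?_, ?_⟩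
  · intro a b hab
    exact eq.injective (Subtype.ext hab)
  · intro t
    rcases (eq t).2 with h | ⟨n, h⟩
    · exact hCT h
    · show ((eq t : C') : K) ∈ T
      rw [← h]
      exact (g n).2
  · intro ξ hξ
    refine ⟨eq.symm ⟨ξ, Or.inl hξ⟩, ?_⟩
    simp

theorem Ex_mono {c : Knd I K} {m m' : ℕ} (h : m ≤ m') {y : Elt K} (hy : Ex c m y) : Ex c m' y := by
  obtain ⟨i, _ | e⟩ := c
  · exact lt_of_lt_of_le hy h
  · obtain ⟨t, ht, h1⟩ := hy
    exact ⟨t, ht.trans_le h, h1⟩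

theorem Ok.exists_Ex {c : Knd I K} {y : Elt K} (h : Ok S c y) : ∃ m, Ex c m y := by
  obtain ⟨i, _ | e⟩ := c
  · exact ⟨y.1 + 1, Nat.lt_succ_self _⟩
  · obtain ⟨_, _, _, _, t, ht⟩ := h
    exact ⟨t + 1, t, Nat.lt_succ_self _, ht⟩

theorem exists_exempt (α : W) (c : Knd I K) (p : Cond I K W)
    (h : ∀ y, Atom.el α c y ∈ p → ∃ m, Ex c m y) : ∃ m, ∀ y, Atom.el α c y ∈ p → Ex c m y := by
  induction p using Finset.induction_on with
  | empty => exact ⟨0, by simp⟩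
  | insert a p _ ih =>
    obtain ⟨m, hm⟩ := ih fun y hy => h y (Finset.mem_insert_of_mem hy)
    by_cases ha : ∃ y, a = Atom.el α c y
    · obtain ⟨y, rfl⟩ := ha
      obtain ⟨m', hm'⟩ := h y (Finset.mem_insert_self _ _)
      refine ⟨max m m', fun z hz => ?_⟩
      rcases Finset.mem_insert.1 hz with h1 | h1
      · simp only [Atom.el.injEq, true_and] at h1
        rw [h1]
        exact Ex_mono (le_max_right _ _) hm'
      · exact Ex_mono (le_max_left _ _) (hm z h1)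
    · refine ⟨m, fun z hz => ?_⟩
      rcases Finset.mem_insert.1 hz with h1 | h1
      · exact absurd ⟨z, h1.symm⟩ ha
      · exact hm z h1

/-- adding a promise -/
theorem valid_add_pr {A : W → Knd I K → Set (Name I K W)} {r : Cond I K W} (hr : Valid S A r)
    (α : W) (c : Knd I K) {m : ℕ} (hm : ∀ y, Atom.el α c y ∈ r → Ex c m y)
    {on : ℕ → Prop} {len : ℕ → ℕ} {sub : (n : ℕ) → Fin (len n) → Atom I K W} {val : ℕ → Elt K}
    (hN : nmOf on len sub val ∈ A α c) :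
    Valid S A (insert (Atom.pr α c m on len sub val) r) := by
  refine ⟨?_, ?_, ?_, ?_⟩
  · intro β ξ j ht hf
    rcases Finset.mem_insert.1 ht with h | h
    · cases h
    · rcases Finset.mem_insert.1 hf with h' | h'
      · cases h'
      · exact hr.coh _ _ _ h h'
  · intro β d m' on' len' sub' val' h
    rcases Finset.mem_insert.1 h with h | h
    · cases h
      exact hN
    · exact hr.pr _ _ _ _ _ _ _ h
  · intro β d y h
    rcases Finset.mem_insert.1 h with h | h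
    · cases h
    · exact hr.ok _ _ _ h
  · intro β d y m' on' len' sub' val' h h'
    have h : Atom.el β d y ∈ r := by
      rcases Finset.mem_insert.1 h with h | h
      · cases h
      · exact h
    rcases Finset.mem_insert.1 h' with h' | h'
    · cases h'
      exact Or.inl (hm y h)
    · rcases hr.sat _ _ _ _ _ _ _ _ h h' with h3 | ⟨u, hu, h3, h4⟩
      · exact Or.inl h3
      · exact Or.inr ⟨u, hu, h3.trans (Finset.subset_insert _ _), h4⟩

variable [LinearOrder W]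

theorem SfD_rst {α : W} {X : Name I K W} (hX : PN α X) (r : Cond I K W) (j : ℕ) :
    SfD (rst (α : WithBot W) r) X j ↔ SfD r X j := by
  constructor
  · exact fun h => h.mono (rst_subset _ _)
  · rintro ⟨u, hu, h1, h2⟩
    exact ⟨u, hu, subset_rst h1 (hX.2 u hu), h2⟩

variable [WellFoundedLT W]

theorem decide_name {α : W} {i : I} (hS : (S i).Infinite) {X : Name I K W} (hX : PN α X)
    {p : Cond I K W} (hp : Valid S (Al S) p) :
    ∃ q, Valid S (Al S) q ∧ p ⊆ q ∧ ∃ e, Function.Injective e ∧ (∀ t, e t ∈ S i) ∧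
      ∃ b m : ℕ, ∃ ε : Bool, ∀ r, Valid S (Al S) r → q ⊆ r → ∀ j, InB α i e b m j r →
        (SfD r X j ↔ ε = true) := by
  obtain ⟨A, qf, τf, εf, Yf, h⟩ := exists_book (S := S) (i := i) hX
  obtain ⟨e, he1, he2, he3⟩ := exists_enum (C := ⋃ a ∈ A, Prod.fst '' (τf a : Set (K × Bool))) hS
    (h.cnt.biUnion fun a _ => (τf a).countable_toSet.image _) (by
      intro ξ hξ
      simp only [Set.mem_iUnion] at hξ
      obtain ⟨a, ha, v, hv, rfl⟩ := hξ
      exact (h.mem a ha).2.1.2 v hv)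
  have he4 : ∀ a ∈ A, ∀ v ∈ τf a, v.1 ∈ Set.range e := fun a ha v hv =>
    he3 (Set.mem_biUnion ha ⟨v, hv, rfl⟩)
  obtain ⟨q', hq', hpq', ε, B, hB1, hB2, hN⟩ := h.sign (PS.rst (β := α) hp)
  have hY := h.glueD_mem
  have hN' : addO B (glueO A qf τf εf ε) ∈ Al S α (i, some e) := by
    rw [mem_Al_some]
    refine ⟨hN, ?_⟩
    rintro _ (⟨a, ⟨ha, _⟩, rfl⟩ | ⟨s, _, rfl⟩) v hv
    · exact he4 a ha v hv
    · simp at hv
  have hY' : glueD A qf τf Yf ∈ Al S α (i, none) := (mem_Al_none S).2 hY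
  obtain ⟨on1, len1, sub1, val1, hc1⟩ := exists_code _ (famD_pn S hY).1
  obtain ⟨on2, len2, sub2, val2, hc2⟩ := exists_code _ (famO_pn S hN).1.1
  have hr : Valid S (Al S) (q' ∪ p) := valid_amalg hp hq' hpq'
  obtain ⟨m, hm⟩ := exists_exempt α (i, none) (q' ∪ p) fun y hy => (hr.ok _ _ _ hy).exists_Ex
  obtain ⟨b, hb⟩ := exists_exempt α (i, some e) (q' ∪ p) fun y hy => (hr.ok _ _ _ hy).exists_Ex
  have hr1 : Valid S (Al S) (insert (Atom.pr α (i, none) m on1 len1 sub1 val1) (q' ∪ p)) :=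
    valid_add_pr hr α _ hm (by rw [hc1]; exact hY')
  have hr2 := valid_add_pr hr1 α (i, some e) (m := b) (on := on2) (len := len2) (sub := sub2)
    (val := val2) (by
      intro y hy
      rcases Finset.mem_insert.1 hy with h1 | h1
      · cases h1
      · exact hb y h1) (by rw [hc2]; exact hN')
  refine ⟨_, hr2, Finset.subset_union_right.trans ((Finset.subset_insert _ _).trans
    (Finset.subset_insert _ _)), e, he1, he2, b, m, ε, ?_⟩
  intro r hrv hqr j hj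
  obtain ⟨hj1, hj2, ⟨τ, hτ1, hτ2⟩, hj3⟩ := hj
  have hpr1 : Atom.pr α (i, none) m on1 len1 sub1 val1 ∈ r :=
    hqr (Finset.mem_insert_of_mem (Finset.mem_insert_self _ _))
  have hpr2 : Atom.pr α (i, some e) b on2 len2 sub2 val2 ∈ r := hqr (Finset.mem_insert_self _ _)
  have hq'r : q' ⊆ r := Finset.subset_union_left.trans ((Finset.subset_insert _ _).trans
    ((Finset.subset_insert _ _).trans hqr))
  have hrst : rst (α : WithBot W) r ∈ PS S α := PS.rst hrv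
  -- the first promise
  obtain ⟨u1, hu1, hu2, hu3⟩ : ∃ u ∈ glueD A qf τf Yf, u.1 ⊆ r ∧ u.2.1 = j := by
    rcases hrv.sat _ _ _ _ _ _ _ _ hj2 hpr1 with h1 | ⟨u, hu, h1, h2⟩
    · exact absurd hj1 (not_le.2 h1)
    · rw [hc1] at hu
      exact ⟨u, hu, h1, h2⟩
  -- the second promise
  obtain ⟨u2, hu4, hu5, hu6⟩ : ∃ u ∈ addO B (glueO A qf τf εf ε), u.1 ⊆ r ∧ u.2.2 ⊆ τ := by
    rcases hrv.sat _ _ _ _ _ _ _ _ hτ1 hpr2 with ⟨t, ht, h1⟩ | ⟨u, hu, h1, h2⟩
    · exfalso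
      exact hrv.coh _ _ _ (hj3 t ht) (hτ2 (mem_lits.2 ⟨_, h1, rfl⟩))
    · rw [hc2] at hu
      exact ⟨u, hu, h1, h2⟩
  obtain ⟨a, ha, hεa, hqa, hτa⟩ : ∃ a ∈ A, εf a = ε ∧ qf a ⊆ r ∧ τf a ⊆ τ := by
    rcases hu4 with ⟨a, ⟨ha, hε⟩, rfl⟩ | ⟨s, hs, rfl⟩
    · exact ⟨a, ha, hε, hu5, hu6⟩
    · exfalso
      exact hB2 s hs ⟨_, hrst, subset_rst hu5 (hB1 hs).2, subset_rst hq'r hq'.2⟩
  simp only [glueD, Set.mem_iUnion] at hu1
  obtain ⟨a', ha', v, hv, rfl⟩ := hu1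
  simp only at hu2 hu3
  subst hu3
  have hqa' : qf a' ⊆ r := (Finset.subset_union_left.trans Finset.subset_union_left).trans hu2
  have hla' : lits ⊥ v.2.1 (τf a') ⊆ r :=
    (Finset.subset_union_right.trans Finset.subset_union_left).trans hu2
  have hla : lits ⊥ v.2.1 (τf a) ⊆ r := (lits_mono hτa).trans hτ2
  have haa : a = a' := by
    refine h.anti a ha a' ha' ⟨_, hrst, subset_rst hqa (h.mem a ha).1.2,
      subset_rst hqa' (h.mem a' ha').1.2⟩ ?_
    have key : ∀ ξ b, (ξ, b) ∈ τf a ∪ τf a' → Atom.coh ⊥ ξ v.2.1 b ∈ r := by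
      intro ξ b hξ
      rcases Finset.mem_union.1 hξ with h1 | h1
      · exact hla (mem_lits.2 ⟨_, h1, rfl⟩)
      · exact hla' (mem_lits.2 ⟨_, h1, rfl⟩)
    exact fun ξ h1 h2 => hrv.coh _ _ _ (key _ _ h1) (key _ _ h2)
  subst haa
  rw [← SfD_rst hX, ← hεa]
  refine (h.mem a ha).2.2.2 _ hrst (subset_rst hqa (h.mem a ha).1.2) _ (subset_rst hla
    (below_lits (WithBot.bot_lt_coe _) _ _)) ?_
  rw [SfD_rst (famD_pn S (h.mem a ha).2.2.1)]
  exact ⟨v, hv, Finset.subset_union_right.trans hu2, rfl⟩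

/-- the generic sets of numbers -/
theorem stepD {i : I} (Bs : Finset W) {α : W} (hα : ∀ β ∈ Bs, β < α) {τ : Finset (K × Bool)}
    (hτ : Gd S i τ) (m : ℕ) {p : Cond I K W} (hp : Valid S (Al S) p) :
    ∃ q, Valid S (Al S) q ∧ p ⊆ q ∧ ∃ j, m ≤ j ∧ lits ⊥ j τ ⊆ q ∧
      ∀ β ∈ Bs, Atom.el β (i, none) (j, ∅) ∈ q := by
  have hL : ((Bs.image fun β => gD β i : Finset (Name I K W)) : Set (Name I K W)) ⊆
      FD S α i := by
    intro N hN
    rw [Finset.mem_coe, Finset.mem_image] at hN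
    obtain ⟨β, hβ, rfl⟩ := hN
    exact (isMax_FD α i).1 ⟨β, hα β hβ, rfl⟩
  obtain ⟨q, hq, hpq, j, hj, hl, hall⟩ := FD_good hL hτ m (PS.rst (β := α) hp)
  refine ⟨q ∪ p, valid_amalg hp hq hpq, Finset.subset_union_right, j, hj,
    hl.trans Finset.subset_union_left, fun β hβ => ?_⟩
  obtain ⟨_, ⟨j', rfl⟩, h1, h2⟩ := hall _ (Finset.mem_image_of_mem _ hβ)
  simp only at h2
  subst h2
  exact Finset.mem_union_left _ (Finset.singleton_subset_iff.1 h1)

/-- the generic open sets -/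
theorem stepO {i : I} (E : Finset (W × (ℕ → K))) {α : W} (hα : ∀ β ∈ E, β.1 < α)
    (hE : ∀ β ∈ E, Function.Injective β.2 ∧ ∀ t, β.2 t ∈ S i) (a : Finset K)
    {p : Cond I K W} (hp : Valid S (Al S) p) :
    ∃ q, Valid S (Al S) q ∧ p ⊆ q ∧ ∃ x : K → Bool, (∀ ξ ∈ a, x ξ = true) ∧
      ∀ β ∈ E, ∃ τ, Atom.el β.1 (i, some β.2) (0, τ) ∈ q ∧ ∀ v ∈ τ, x v.1 = v.2 := by
  have hL : ((E.image fun β => gO S β.1 i β.2 : Finset (Name I K W)) : Set (Name I K W)) ⊆
      FO S α i := by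
    intro N hN
    rw [Finset.mem_coe, Finset.mem_image] at hN
    obtain ⟨β, hβ, rfl⟩ := hN
    exact (isMax_FO α i).1 ⟨β.1, hα β hβ, β.2, (hE β hβ).1, (hE β hβ).2, rfl⟩
  obtain ⟨q, hq, hpq, x, hx, hall⟩ := FO_good hL a (PS.rst (β := α) hp)
  refine ⟨q ∪ p, valid_amalg hp hq hpq, Finset.subset_union_right, x, hx, fun β hβ => ?_⟩
  obtain ⟨_, ⟨⟨n, τ⟩, hy, rfl⟩, h1, h2⟩ := hall _ (Finset.mem_image_of_mem _ hβ)
  have hn : n = 0 := hy.1
  subst hn
  exact ⟨τ, Finset.mem_union_left _ (Finset.singleton_subset_iff.1 h1), h2⟩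

omit [WellFoundedLT W] in
theorem exists_above [NoMaxOrder W] [Nonempty W] (Bs : Finset W) : ∃ α, ∀ β ∈ Bs, β < α := by
  obtain ⟨β, hβ⟩ := Finset.exists_le Bs
  obtain ⟨α, hα⟩ := exists_gt β
  exact ⟨α, fun γ hγ => (hβ γ hγ).trans_lt hα⟩

/-- finite intersections of basic sets are infinite -/
theorem pos_B [NoMaxOrder W] [Nonempty W] {i : I} (H : Finset (W × (ℕ → K) × ℕ × ℕ))
    (hH : ∀ η ∈ H, Function.Injective η.2.1 ∧ ∀ t, η.2.1 t ∈ S i) (m : ℕ)
    {p : Cond I K W} (hp : Valid S (Al S) p) :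
    ∃ q, Valid S (Al S) q ∧ p ⊆ q ∧ ∃ j, m ≤ j ∧
      ∀ η ∈ H, InB η.1 i η.2.1 η.2.2.1 η.2.2.2 j q := by
  obtain ⟨α, hα⟩ := exists_above (H.image fun η => η.1)
  have hα' : ∀ η ∈ H, η.1 < α := fun η hη => hα _ (Finset.mem_image_of_mem _ hη)
  let a : Finset K := H.biUnion fun η => (Finset.range η.2.2.1).image η.2.1
  have ha : ∀ η ∈ H, ∀ t < η.2.2.1, η.2.1 t ∈ a := fun η hη t ht =>
    Finset.mem_biUnion.2 ⟨η, hη, Finset.mem_image_of_mem _ (Finset.mem_range.2 ht)⟩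
  have haS : ∀ ξ ∈ a, ξ ∈ S i := by
    intro ξ hξ
    obtain ⟨η, hη, h1⟩ := Finset.mem_biUnion.1 hξ
    obtain ⟨t, _, rfl⟩ := Finset.mem_image.1 h1
    exact (hH η hη).2 t
  obtain ⟨q, hq, hpq, x, hx, hall⟩ := stepO (S := S) (i := i) (H.image fun η => (η.1, η.2.1))
    (α := α) (by
      intro β hβ
      obtain ⟨η, hη, rfl⟩ := Finset.mem_image.1 hβ
      exact hα' η hη) (by
      intro β hβ
      obtain ⟨η, hη, rfl⟩ := Finset.mem_image.1 hβ
      exact hH η hη) a hp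
  have hall' : ∀ η ∈ H, ∃ τ, Atom.el η.1 (i, some η.2.1) (0, τ) ∈ q ∧ ∀ v ∈ τ, x v.1 = v.2 :=
    fun η hη => hall _ (Finset.mem_image_of_mem (fun η => (η.1, η.2.1)) hη)
  choose! τ hτ1 hτ2 using hall'
  let F : Finset K := a ∪ H.biUnion fun η => (τ η).image Prod.fst
  have hFS : ∀ ξ ∈ F, ξ ∈ S i := by
    intro ξ hξ
    rcases Finset.mem_union.1 hξ with h | h
    · exact haS ξ h
    · obtain ⟨η, hη, h1⟩ := Finset.mem_biUnion.1 h
      obtain ⟨v, hv, rfl⟩ := Finset.mem_image.1 h1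
      obtain ⟨t, ht⟩ := (hq.ok _ _ _ (hτ1 η hη)).2.2.2.1 v hv
      rw [← ht]
      exact (hH η hη).2 t
  have hG : Gd S i (pc x F) := by
    refine ⟨fun ξ ht hf => ?_, fun u hu => hFS _ (mem_pc.1 hu).1⟩
    rw [mem_pc] at ht hf
    have := ht.2.symm.trans hf.2
    simp at this
  obtain ⟨q2, hq2, hqq2, j, hj, hl, hel⟩ := stepD (S := S) (i := i) (H.image fun η => η.1)
    hα hG (max m (H.sup fun η => η.2.2.2)) hq
  refine ⟨q2, hq2, hpq.trans hqq2, j, (le_max_left _ _).trans hj, fun η hη => ?_⟩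
  refine ⟨(Finset.le_sup (f := fun η : W × (ℕ → K) × ℕ × ℕ => η.2.2.2) hη).trans
      ((le_max_right _ _).trans hj), hel _ (Finset.mem_image_of_mem _ hη),
    ⟨τ η, hqq2 (hτ1 η hη), ?_⟩, ?_⟩
  · refine (lits_mono ?_).trans hl
    intro v hv
    exact mem_pc.2 ⟨Finset.mem_union_right _ (Finset.mem_biUnion.2
      ⟨η, hη, Finset.mem_image_of_mem _ hv⟩), hτ2 η hη v hv⟩
  · intro t ht
    refine hl (mem_lits.2 ⟨(η.2.1 t, true), mem_pc.2 ⟨Finset.mem_union_left _ (ha η hη t ht),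
      hx _ (ha η hη t ht)⟩, rfl⟩)

/-- a basic set is contained in finitely many of the independent sets only -/
theorem few_B [NoMaxOrder W] [Nonempty W] {i : I} (α : W) {e : ℕ → K}
    (he1 : Function.Injective e) (he2 : ∀ t, e t ∈ S i) (b m : ℕ)
    {p : Cond I K W} (hp : Valid S (Al S) p) :
    ∃ q, Valid S (Al S) q ∧ p ⊆ q ∧ ∃ F : Finset K, ∀ ξ ∈ S i, ξ ∉ F → ∀ r, Valid S (Al S) r →
      q ⊆ r → ∃ r', Valid S (Al S) r' ∧ r ⊆ r' ∧ ∃ j, InB α i e b m j r' ∧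
        Atom.coh ⊥ ξ j false ∈ r' := by
  obtain ⟨α', hα'⟩ := exists_gt α
  let a : Finset K := (Finset.range b).image e
  have ha : ∀ t < b, e t ∈ a := fun t ht => Finset.mem_image_of_mem _ (Finset.mem_range.2 ht)
  obtain ⟨q, hq, hpq, x, hx, hall⟩ := stepO (S := S) (i := i) {(α, e)}
    (α := α') (by simpa using hα') (by simpa using ⟨he1, he2⟩) a hp
  obtain ⟨τ, hτ1, hτ2⟩ := hall (α, e) (Finset.mem_singleton_self _)
  let F : Finset K := a ∪ τ.image Prod.fst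
  have hFS : ∀ ξ ∈ F, ξ ∈ S i := by
    intro ξ hξ
    rcases Finset.mem_union.1 hξ with h | h
    · obtain ⟨t, _, rfl⟩ := Finset.mem_image.1 h
      exact he2 t
    · obtain ⟨v, hv, rfl⟩ := Finset.mem_image.1 h
      obtain ⟨t, ht⟩ := (hq.ok _ _ _ hτ1).2.2.2.1 v hv
      rw [← ht]
      exact he2 t
  refine ⟨q, hq, hpq, F, fun ξ hξS hξF r hr hqr => ?_⟩
  have hG : Gd S i (insert (ξ, false) (pc x F)) := by
    refine ⟨fun ζ ht hf => ?_, fun u hu => ?_⟩
    · rw [Finset.mem_insert] at ht hf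
      rcases ht with ht | ht
      · simp at ht
      · rcases hf with hf | hf
        · simp only [Prod.mk.injEq, and_true] at hf
          subst hf
          exact hξF (mem_pc.1 ht).1
        · rw [mem_pc] at ht hf
          have := ht.2.symm.trans hf.2
          simp at this
    · rcases Finset.mem_insert.1 hu with rfl | hu
      · exact hξS
      · exact hFS _ (mem_pc.1 hu).1
  obtain ⟨r', hr', hrr', j, hj, hl, hel⟩ := stepD (S := S) (i := i) {α} (α := α')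
    (by simpa using hα') hG m hr
  refine ⟨r', hr', hrr', j, ⟨hj, hel α (Finset.mem_singleton_self _),
    ⟨τ, hrr' (hqr hτ1), ?_⟩, ?_⟩, ?_⟩
  · refine (lits_mono ?_).trans hl
    intro v hv
    exact Finset.mem_insert_of_mem (mem_pc.2 ⟨Finset.mem_union_right _
      (Finset.mem_image_of_mem _ hv), hτ2 v hv⟩)
  · intro t ht
    exact hl (mem_lits.2 ⟨(e t, true), Finset.mem_insert_of_mem (mem_pc.2
      ⟨Finset.mem_union_left _ (ha t ht), hx _ (ha t ht)⟩), rfl⟩)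
  · exact hl (mem_lits.2 ⟨(ξ, false), Finset.mem_insert_self _ _, rfl⟩)

/-- the Cohen real of stage `α` splits all earlier sets -/
theorem split_name {α : W} {X : Name I K W} (hX : PN α X) {p : Cond I K W}
    (hp : Valid S (Al S) p)
    (hinf : ∀ m : ℕ, ∃ r, Valid S (Al S) r ∧ p ⊆ r ∧ ∃ j, m ≤ j ∧ SfD r X j) (m : ℕ)
    (ξ : K) (b : Bool) :
    ∃ r, Valid S (Al S) r ∧ p ⊆ r ∧ ∃ j, m ≤ j ∧ SfD r X j ∧ Atom.coh α ξ j b ∈ r := by
  obtain ⟨m', hm', hfr⟩ := exists_fresh p m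
  obtain ⟨r, hr, hpr, j, hj, hsf⟩ := hinf m'
  have hq : Valid S (Al S) (rst (α : WithBot W) r ∪ p) :=
    valid_amalg hp (PS.rst hr) (rst_mono hpr)
  refine ⟨_, valid_add_lits hq (α := α) (j := j) (τ := {(ξ, b)}) ?_ ?_,
    Finset.subset_union_right.trans Finset.subset_union_left, j, hm'.trans hj, ?_, ?_⟩
  · intro ζ h1 h2
    simp only [Finset.mem_singleton, Prod.mk.injEq] at h1 h2
    rw [← h1.2] at h2
    simp at h2
  · intro ζ b' h
    rcases Finset.mem_union.1 h with h | h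
    · exact coh_notMem_of_below (below_rst _ _) _ _ _ h
    · exact hfr j hj _ _ _ h
  · rw [← SfD_rst hX] at hsf
    exact hsf.mono (Finset.subset_union_left.trans Finset.subset_union_left)
  · exact Finset.mem_union_right _ (mem_lits.2 ⟨_, Finset.mem_singleton_self _, rfl⟩)

end Pool.Agent.KS6_46.Sp
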