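import Pool.Agent.KS6_46.Sp.Ccc

/-!
# Maximal families of names, and the iteration
-/

set_option autoImplicit false

namespace Pool.Agent.KS6_46.Sp

open Classical

section General

variable {N : Type}

/-- `M` is a maximal set containing `B` all of whose finite subsets have the property `Good` -/
def IsMax (Good : Finset N → Prop) (B M : Set N) : Prop :=
  B ⊆ M ∧ (∀ L : Finset N, (L : Set N) ⊆ M → Good L) ∧
    ∀ X, (∀ L : Finset N, (L : Set N) ⊆ M → Good (insert X L)) → X ∈ M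

theorem exists_isMax (Good : Finset N → Prop) (B : Set N)
    (hB : ∀ L : Finset N, (L : Set N) ⊆ B → Good L)
    (hanti : ∀ L L' : Finset N, L ⊆ L' → Good L' → Good L) : ∃ M, IsMax Good B M := by
  obtain ⟨M, hBM, ⟨hBM', hM⟩, hmax⟩ : ∃ M, B ⊆ M ∧ Maximal (fun M : Set N =>
      M ∈ {M : Set N | B ⊆ M ∧ ∀ L : Finset N, (L : Set N) ⊆ M → Good L}) M := by
    refine zorn_subset_nonempty {M : Set N | B ⊆ M ∧ ∀ L : Finset N, (L : Set N) ⊆ M → Good L}
      ?_ B ⟨subset_rfl, hB⟩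
    intro c hc hchain hne
    refine ⟨⋃₀ c, ⟨?_, ?_⟩, fun s hs => Set.subset_sUnion_of_mem hs⟩
    · obtain ⟨M, hM⟩ := hne
      exact (hc hM).1.trans (Set.subset_sUnion_of_mem hM)
    · intro L hL
      obtain ⟨M, hM, hLM⟩ := hchain.directedOn.exists_mem_subset_of_finite_of_subset_sUnion hne
        L.finite_toSet hL
      exact (hc hM).2 L hLM
  refine ⟨M, hBM, hM, fun X hX => ?_⟩
  refine hmax (y := insert X M) ⟨hBM.trans (Set.subset_insert _ _), ?_⟩ (Set.subset_insert _ _)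
    (Set.mem_insert _ _)
  intro L hL
  refine hanti L (insert X (L.erase X)) (Finset.subset_insert_iff.2 subset_rfl) (hX _ ?_)
  intro Y hY
  rw [Finset.mem_coe, Finset.mem_erase] at hY
  rcases hL hY.2 with h | h
  · exact absurd h hY.1
  · exact h

end General

variable {I K W : Type}

/-- the countable chain condition for a set of conditions -/
def CCCs (Q : Set (Cond I K W)) : Prop :=
  ∀ B ⊆ Q, (∀ p ∈ B, ∀ q ∈ B, p ≠ q → ¬ ∃ r ∈ Q, p ⊆ r ∧ q ⊆ r) → B.Countable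

theorem exists_pre {Q : Set (Cond I K W)} (hQ : CCCs Q) (φ : Set (Cond I K W)) (hφ : φ ⊆ Q) :
    ∃ A ⊆ φ, A.Countable ∧ (∀ p ∈ A, ∀ q ∈ A, p ≠ q → ¬ ∃ r ∈ Q, p ⊆ r ∧ q ⊆ r) ∧
      ∀ p ∈ φ, ∃ a ∈ A, ∃ r ∈ Q, p ⊆ r ∧ a ⊆ r := by
  obtain ⟨A, ⟨h1, h2⟩, hmax⟩ : ∃ A, Maximal (fun A : Set (Cond I K W) =>
      A ∈ {A : Set (Cond I K W) | A ⊆ φ ∧
        ∀ p ∈ A, ∀ q ∈ A, p ≠ q → ¬ ∃ r ∈ Q, p ⊆ r ∧ q ⊆ r}) A := by
    apply zorn_subset
    intro c hc hchain
    refine ⟨⋃₀ c, ⟨Set.sUnion_subset fun A hA => (hc hA).1, ?_⟩,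
      fun s hs => Set.subset_sUnion_of_mem hs⟩
    rintro p ⟨A, hA, hpA⟩ q ⟨B, hB, hqB⟩ hne
    rcases hchain.total hA hB with h | h
    · exact (hc hB).2 p (h hpA) q hqB hne
    · exact (hc hA).2 p hpA q (h hqB) hne
  refine ⟨A, h1, hQ A (h1.trans hφ) h2, h2, fun p hp => ?_⟩
  by_contra hcon
  push Not at hcon
  have hpA : p ∉ A := fun h => hcon p h p (hφ hp) subset_rfl subset_rfl
  apply hpA
  refine hmax (y := insert p A) ⟨Set.insert_subset hp h1, ?_⟩ (Set.subset_insert p A)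
    (Set.mem_insert p A)
  rintro x (rfl | hx) y (rfl | hy) hne
  · exact absurd rfl hne
  · rintro ⟨r, hr, hr1, hr2⟩
    exact hcon y hy r hr hr1 hr2
  · rintro ⟨r, hr, hr1, hr2⟩
    exact hcon x hx r hr hr2 hr1
  · exact h2 x hx y hy hne

variable (S : I → Set K)

/-- finite pieces of functions into `Bool`, with domain contained in `S i` -/
def Gd (i : I) (τ : Finset (K × Bool)) : Prop :=
  (∀ ξ, (ξ, true) ∈ τ → (ξ, false) ∉ τ) ∧ ∀ u ∈ τ, u.1 ∈ S i

/-- the bits numbered `j` of the Cohen reals of stage `α` are given by `τ` -/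
noncomputable def lits (α : WithBot W) (j : ℕ) (τ : Finset (K × Bool)) : Cond I K W :=
  τ.image fun u => Atom.coh α u.1 j u.2

theorem mem_lits {α : WithBot W} {j : ℕ} {τ : Finset (K × Bool)} {a : Atom I K W} :
    a ∈ lits α j τ ↔ ∃ u ∈ τ, Atom.coh α u.1 j u.2 = a := by
  rw [lits, Finset.mem_image]

theorem coh_mem_lits {α β : WithBot W} {j k : ℕ} {τ : Finset (K × Bool)} {ξ : K} {b : Bool} :
    (Atom.coh β ξ k b : Atom I K W) ∈ lits α j τ ↔ β = α ∧ k = j ∧ (ξ, b) ∈ τ := by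
  rw [mem_lits]
  constructor
  · rintro ⟨⟨ξ', b'⟩, hu, h⟩
    simp only [Atom.coh.injEq] at h
    obtain ⟨rfl, rfl, rfl, rfl⟩ := h
    exact ⟨rfl, rfl, hu⟩
  · rintro ⟨rfl, rfl, hu⟩
    exact ⟨_, hu, rfl⟩

theorem el_notMem_lits {α : WithBot W} {j : ℕ} {τ : Finset (K × Bool)} {β : W} {c : Knd I K}
    {y : Elt K} : (Atom.el β c y : Atom I K W) ∉ lits α j τ := by
  rw [mem_lits]
  rintro ⟨u, _, h⟩
  cases h

theorem pr_notMem_lits {α : WithBot W} {j : ℕ} {τ : Finset (K × Bool)} {β : W} {c : Knd I K}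
    {m : ℕ} {on : ℕ → Prop} {len : ℕ → ℕ} {sub : (n : ℕ) → Fin (len n) → Atom I K W}
    {val : ℕ → Elt K} : (Atom.pr β c m on len sub val : Atom I K W) ∉ lits α j τ := by
  rw [mem_lits]
  rintro ⟨u, _, h⟩
  cases h

theorem lits_mono {α : WithBot W} {j : ℕ} {τ τ' : Finset (K × Bool)} (h : τ ⊆ τ') :
    (lits α j τ : Cond I K W) ⊆ lits α j τ' := Finset.image_subset_image h

/-- `q` puts the number `j` into the set named by `N` -/
def SfD (q : Cond I K W) (N : Name I K W) (j : ℕ) : Prop := ∃ u ∈ N, u.1 ⊆ q ∧ u.2.1 = j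

/-- `q` puts the point `x` into the open set named by `N` -/
def SfO (q : Cond I K W) (N : Name I K W) (x : K → Bool) : Prop :=
  ∃ u ∈ N, u.1 ⊆ q ∧ ∀ v ∈ u.2.2, x v.1 = v.2

theorem SfD.mono {q r : Cond I K W} (h : q ⊆ r) {N : Name I K W} {j : ℕ} (hq : SfD q N j) :
    SfD r N j := by
  obtain ⟨u, hu, h1, h2⟩ := hq
  exact ⟨u, hu, h1.trans h, h2⟩

theorem SfO.mono {q r : Cond I K W} (h : q ⊆ r) {N : Name I K W} {x : K → Bool}
    (hq : SfO q N x) : SfO r N x := by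
  obtain ⟨u, hu, h1, h2⟩ := hq
  exact ⟨u, hu, h1.trans h, h2⟩

/-- the name of the generic set of numbers with index `(β, i)` -/
def gD (β : W) (i : I) : Name I K W :=
  Set.range fun j : ℕ => ({Atom.el β (i, none) (j, ∅)}, (j, ∅))

/-- the name of the generic open set with index `(β, i, e)` -/
def gO (β : W) (i : I) (e : ℕ → K) : Name I K W :=
  (fun y => ({Atom.el β (i, some e) y}, y)) '' {y | Ok S (i, some e) y}

variable [LinearOrder W]

/-- names for stage `α` -/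
def PN (α : W) (N : Name I K W) : Prop := N.Countable ∧ ∀ u ∈ N, Below (α : WithBot W) u.1

/-- the property of the finite families of names for sets of numbers -/
def GoodD (Q : Set (Cond I K W)) (α : W) (i : I) (L : Finset (Name I K W)) : Prop :=
  (∀ N ∈ L, PN α N) ∧ ∀ τ, Gd S i τ → ∀ m : ℕ, ∀ p ∈ Q, ∃ q ∈ Q, p ⊆ q ∧
    ∃ j, m ≤ j ∧ lits ⊥ j τ ⊆ q ∧ ∀ N ∈ L, SfD q N j

/-- the property of the finite families of names for open sets -/
def GoodO (Q : Set (Cond I K W)) (α : W) (i : I) (L : Finset (Name I K W)) : Prop :=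
  (∀ N ∈ L, PN α N ∧ ∀ u ∈ N, ∀ v ∈ u.2.2, v.1 ∈ S i) ∧ ∀ a : Finset K, ∀ p ∈ Q,
    ∃ q ∈ Q, p ⊆ q ∧ ∃ x : K → Bool, (∀ ξ ∈ a, x ξ = true) ∧ ∀ N ∈ L, SfO q N x

/-- names of earlier generic sets of numbers -/
def baseD (α : W) (i : I) : Set (Name I K W) := {N | ∃ β < α, N = gD β i}

/-- names of earlier generic open sets -/
def baseO (α : W) (i : I) : Set (Name I K W) :=
  {N | ∃ β < α, ∃ e : ℕ → K, Function.Injective e ∧ (∀ t, e t ∈ S i) ∧ N = gO S β i e}

/-- the chosen maximal family of names for sets of numbers -/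
noncomputable def famD (Q : Set (Cond I K W)) (α : W) (i : I) : Set (Name I K W) :=
  if h : ∃ M, IsMax (GoodD S Q α i) (baseD α i) M then h.choose else ∅

/-- the chosen maximal family of names for open sets -/
noncomputable def famO (Q : Set (Cond I K W)) (α : W) (i : I) : Set (Name I K W) :=
  if h : ∃ M, IsMax (GoodO S Q α i) (baseO S α i) M then h.choose else ∅

/-- the allowed names -/
noncomputable def fam (Q : Set (Cond I K W)) (α : W) : Knd I K → Set (Name I K W)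
  | (i, none) => famD S Q α i
  | (i, some e) => {N ∈ famO S Q α i | ∀ u ∈ N, ∀ v ∈ u.2.2, v.1 ∈ Set.range e}

theorem famD_spec {Q : Set (Cond I K W)} {α : W} {i : I}
    (h : ∃ M, IsMax (GoodD S Q α i) (baseD α i) M) :
    IsMax (GoodD S Q α i) (baseD α i) (famD S Q α i) := by
  rw [famD, dif_pos h]
  exact h.choose_spec

theorem famO_spec {Q : Set (Cond I K W)} {α : W} {i : I}
    (h : ∃ M, IsMax (GoodO S Q α i) (baseO S α i) M) :
    IsMax (GoodO S Q α i) (baseO S α i) (famO S Q α i) := by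
  rw [famO, dif_pos h]
  exact h.choose_spec

theorem famD_pn {Q : Set (Cond I K W)} {α : W} {i : I} {N : Name I K W}
    (hN : N ∈ famD S Q α i) : PN α N := by
  by_cases h : ∃ M, IsMax (GoodD S Q α i) (baseD α i) M
  · have := ((famD_spec S h).2.1 {N} (by simpa using hN)).1
    exact this N (Finset.mem_singleton_self N)
  · rw [famD, dif_neg h] at hN
    exact absurd hN (Set.notMem_empty _)

theorem famO_pn {Q : Set (Cond I K W)} {α : W} {i : I} {N : Name I K W}
    (hN : N ∈ famO S Q α i) : PN α N ∧ ∀ u ∈ N, ∀ v ∈ u.2.2, v.1 ∈ S i := by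
  by_cases h : ∃ M, IsMax (GoodO S Q α i) (baseO S α i) M
  · have := ((famO_spec S h).2.1 {N} (by simpa using hN)).1
    exact this N (Finset.mem_singleton_self N)
  · rw [famO, dif_neg h] at hN
    exact absurd hN (Set.notMem_empty _)

variable [WellFoundedLT W]

/-- the names allowed in promises -/
noncomputable def Al : W → Knd I K → Set (Name I K W) :=
  WellFounded.fix (wellFounded_lt (α := W)) fun α prev =>
    fam S {p | Valid S (fun β c => {N | ∃ h : β < α, N ∈ prev β h c}) p ∧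
      Below (α : WithBot W) p} α

/-- the conditions below stage `α` -/
def PS (α : W) : Set (Cond I K W) := {p | Valid S (Al S) p ∧ Below (α : WithBot W) p}

theorem Al_eq (α : W) : Al S α = fam S (PS S α) α := by
  rw [Al, WellFounded.fix_eq]
  congr 1
  ext p
  simp only [PS, Set.mem_ofPred_eq]
  constructor
  · rintro ⟨h1, h2⟩
    refine ⟨⟨h1.coh, ?_, h1.ok, h1.sat⟩, h2⟩
    intro β c m on len sub val h
    obtain ⟨_, h3⟩ := h1.pr _ _ _ _ _ _ _ h
    exact h3
  · rintro ⟨h1, h2⟩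
    refine ⟨⟨h1.coh, ?_, h1.ok, h1.sat⟩, h2⟩
    intro β c m on len sub val h
    exact ⟨WithBot.coe_lt_coe.1 (h2 _ h), h1.pr _ _ _ _ _ _ _ h⟩

/-- the chosen families -/
noncomputable def FD (α : W) (i : I) : Set (Name I K W) := famD S (PS S α) α i

/-- the chosen families -/
noncomputable def FO (α : W) (i : I) : Set (Name I K W) := famO S (PS S α) α i

theorem mem_Al_none {α : W} {i : I} {N : Name I K W} : N ∈ Al S α (i, none) ↔ N ∈ FD S α i := by
  rw [Al_eq]
  rfl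

theorem mem_Al_some {α : W} {i : I} {e : ℕ → K} {N : Name I K W} :
    N ∈ Al S α (i, some e) ↔ N ∈ FO S α i ∧ ∀ u ∈ N, ∀ v ∈ u.2.2, v.1 ∈ Set.range e := by
  rw [Al_eq]
  rfl

theorem proper_Al : Proper (Al S : W → Knd I K → Set (Name I K W)) := by
  rintro α ⟨i, _ | e⟩ N hN u hu
  · rw [mem_Al_none] at hN
    exact (famD_pn S hN).2 u hu
  · rw [mem_Al_some] at hN
    exact (famO_pn S hN.1).1.2 u hu

end Pool.Agent.KS6_46.Sp
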