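import Pool.Agent.KS6_46.Sp.Fam

/-!
# The maximal families exist at each stage
-/

set_option autoImplicit false

namespace Pool.Agent.KS6_46.Sp

open Classical

variable {I K W : Type} {S : I → Set K} {A : W → Knd I K → Set (Name I K W)}

/-- the name of a promise -/
noncomputable def Atom.nm : Atom I K W → Name I K W
  | .pr _ _ _ on len sub val => nmOf on len sub val
  | _ => ∅

/-- the names in the promises of a condition with index `(α, c)` -/
noncomputable def prs (α : W) (c : Knd I K) (p : Cond I K W) : Finset (Name I K W) :=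
  (p.filter fun a => ∃ m on len sub val, a = Atom.pr α c m on len sub val).image Atom.nm

theorem mem_prs {α : W} {c : Knd I K} {p : Cond I K W} {N : Name I K W} :
    N ∈ prs α c p ↔ ∃ m on len sub val, Atom.pr α c m on len sub val ∈ p ∧
      nmOf on len sub val = N := by
  simp only [prs, Finset.mem_image, Finset.mem_filter]
  constructor
  · rintro ⟨a, ⟨h, m, on, len, sub, val, rfl⟩, rfl⟩
    exact ⟨m, on, len, sub, val, h, rfl⟩
  · rintro ⟨m, on, len, sub, val, h, rfl⟩
    exact ⟨_, ⟨h, m, on, len, sub, val, rfl⟩, rfl⟩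

/-- adding finitely many elements -/
theorem valid_add_els {r : Cond I K W} (hr : Valid S A r) (E : Finset (W × Knd I K × Elt K))
    (hok : ∀ u ∈ E, Ok S u.2.1 u.2.2)
    (hs : ∀ u ∈ E, ∀ N ∈ prs u.1 u.2.1 r, ∃ v ∈ N, v.1 ⊆ r ∧ Cov u.2.1 u.2.2 v.2) :
    Valid S A (r ∪ E.image fun u => Atom.el u.1 u.2.1 u.2.2) := by
  refine ⟨?_, ?_, ?_, ?_⟩
  · intro α ξ j ht hf
    rcases Finset.mem_union.1 ht with h | h
    · rcases Finset.mem_union.1 hf with h' | h'
      · exact hr.coh _ _ _ h h'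
      · obtain ⟨u, _, h⟩ := Finset.mem_image.1 h'
        cases h
    · obtain ⟨u, _, h⟩ := Finset.mem_image.1 h
      cases h
  · intro α c m on len sub val h
    rcases Finset.mem_union.1 h with h | h
    · exact hr.pr _ _ _ _ _ _ _ h
    · obtain ⟨u, _, h⟩ := Finset.mem_image.1 h
      cases h
  · intro α c y h
    rcases Finset.mem_union.1 h with h | h
    · exact hr.ok _ _ _ h
    · obtain ⟨⟨α', c', y'⟩, hu, h⟩ := Finset.mem_image.1 h
      simp only [Atom.el.injEq] at h
      obtain ⟨rfl, rfl, rfl⟩ := h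
      exact hok _ hu
  · intro α c y m on len sub val h h'
    have h' : Atom.pr α c m on len sub val ∈ r := by
      rcases Finset.mem_union.1 h' with h' | h'
      · exact h'
      · obtain ⟨u, _, h⟩ := Finset.mem_image.1 h'
        cases h
    rcases Finset.mem_union.1 h with h | h
    · rcases hr.sat _ _ _ _ _ _ _ _ h h' with h3 | ⟨u, hu, h3, h4⟩
      · exact Or.inl h3
      · exact Or.inr ⟨u, hu, h3.trans Finset.subset_union_left, h4⟩
    · obtain ⟨⟨α', c', y'⟩, hu, h⟩ := Finset.mem_image.1 h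
      simp only [Atom.el.injEq] at h
      obtain ⟨rfl, rfl, rfl⟩ := h
      obtain ⟨v, hv, h3, h4⟩ := hs _ hu _ (mem_prs.2 ⟨m, on, len, sub, val, h', rfl⟩)
      exact Or.inr ⟨v, hv, h3.trans Finset.subset_union_left, h4⟩

/-- adding Cohen bits -/
theorem valid_add_lits {r : Cond I K W} (hr : Valid S A r) {α : WithBot W} {j : ℕ}
    {τ : Finset (K × Bool)} (hτ : ∀ ξ, (ξ, true) ∈ τ → (ξ, false) ∉ τ)
    (hj : ∀ ξ b, Atom.coh α ξ j b ∉ r) : Valid S A (r ∪ lits α j τ) := by
  refine ⟨?_, ?_, ?_, ?_⟩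
  · intro β ξ k ht hf
    rcases Finset.mem_union.1 ht with h | h
    · rcases Finset.mem_union.1 hf with h' | h'
      · exact hr.coh _ _ _ h h'
      · obtain ⟨rfl, rfl, _⟩ := coh_mem_lits.1 h'
        exact hj _ _ h
    · obtain ⟨rfl, rfl, h1⟩ := coh_mem_lits.1 h
      rcases Finset.mem_union.1 hf with h' | h'
      · exact hj _ _ h'
      · obtain ⟨_, _, h2⟩ := coh_mem_lits.1 h'
        exact hτ _ h1 h2
  · intro α c m on len sub val h
    rcases Finset.mem_union.1 h with h | h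
    · exact hr.pr _ _ _ _ _ _ _ h
    · exact absurd h pr_notMem_lits
  · intro α c y h
    rcases Finset.mem_union.1 h with h | h
    · exact hr.ok _ _ _ h
    · exact absurd h el_notMem_lits
  · intro α c y m on len sub val h h'
    have h : Atom.el α c y ∈ r := by
      rcases Finset.mem_union.1 h with h | h
      · exact h
      · exact absurd h el_notMem_lits
    have h' : Atom.pr α c m on len sub val ∈ r := by
      rcases Finset.mem_union.1 h' with h' | h'
      · exact h'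
      · exact absurd h' pr_notMem_lits
    rcases hr.sat _ _ _ _ _ _ _ _ h h' with h3 | ⟨u, hu, h3, h4⟩
    · exact Or.inl h3
    · exact Or.inr ⟨u, hu, h3.trans Finset.subset_union_left, h4⟩

theorem exists_fresh (p : Cond I K W) (m : ℕ) :
    ∃ j, m ≤ j ∧ ∀ k, j ≤ k → ∀ α ξ b, Atom.coh α ξ k b ∉ p := by
  let f : Atom I K W → ℕ := fun a => match a with
    | .coh _ _ j _ => j
    | _ => 0
  refine ⟨max m (p.sup f + 1), le_max_left _ _, fun k hk α ξ b h => ?_⟩
  have h1 : k ≤ p.sup f := Finset.le_sup (f := f) h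
  have h2 := (le_max_right _ _).trans hk
  omega

variable [LinearOrder W]

theorem below_lits {α β : WithBot W} (h : β < α) (j : ℕ) (τ : Finset (K × Bool)) :
    Below α (lits β j τ : Cond I K W) := by
  intro a ha
  obtain ⟨u, _, rfl⟩ := mem_lits.1 ha
  exact h

theorem below_els {α : WithBot W} (E : Finset (W × Knd I K × Elt K))
    (h : ∀ u ∈ E, (u.1 : WithBot W) < α) :
    Below α (E.image fun u => (Atom.el u.1 u.2.1 u.2.2 : Atom I K W)) := by
  intro a ha
  obtain ⟨u, hu, rfl⟩ := Finset.mem_image.1 ha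
  exact h u hu

variable [WellFoundedLT W]

theorem PS.rst {β : W} {p : Cond I K W} (hp : Valid S (Al S) p) :
    Sp.rst (β : WithBot W) p ∈ PS S β :=
  ⟨valid_rst (proper_Al S) _ hp, below_rst _ _⟩

theorem valid_amalg {β : W} {p q : Cond I K W} (hp : Valid S (Al S) p) (hq : q ∈ PS S β)
    (h : Sp.rst (β : WithBot W) p ⊆ q) : Valid S (Al S) (q ∪ p) :=
  amalg hp hq.1 hq.2 h

theorem prs_none_sub {β : W} {i : I} {p : Cond I K W} (hp : Valid S (Al S) p) :
    (prs β (i, none) p : Set (Name I K W)) ⊆ FD S β i := by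
  intro N hN
  obtain ⟨m, on, len, sub, val, h, rfl⟩ := mem_prs.1 hN
  exact (mem_Al_none S).1 (hp.pr _ _ _ _ _ _ _ h)

theorem prs_some_sub {β : W} {i : I} {e : ℕ → K} {p : Cond I K W} (hp : Valid S (Al S) p) :
    ∀ N ∈ prs β (i, some e) p, N ∈ FO S β i ∧ ∀ u ∈ N, ∀ v ∈ u.2.2, v.1 ∈ Set.range e := by
  intro N hN
  obtain ⟨m, on, len, sub, val, h, rfl⟩ := mem_prs.1 hN
  exact (mem_Al_some S).1 (hp.pr _ _ _ _ _ _ _ h)

omit [WellFoundedLT W] in
theorem prs_union {β : W} {c : Knd I K} {p q : Cond I K W} (hq : Below (β : WithBot W) q) :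
    prs β c (q ∪ p) = prs β c p := by
  ext N
  rw [mem_prs, mem_prs]
  constructor
  · rintro ⟨m, on, len, sub, val, h, h'⟩
    refine ⟨m, on, len, sub, val, ?_, h'⟩
    rcases Finset.mem_union.1 h with h | h
    · exact absurd (hq _ h) (lt_irrefl _)
    · exact h
  · rintro ⟨m, on, len, sub, val, h, h'⟩
    exact ⟨m, on, len, sub, val, Finset.mem_union_right _ h, h'⟩

theorem good_baseD {α : W} {i : I}
    (ih : ∀ β < α, IsMax (GoodD S (PS S β) β i) (baseD β i) (FD S β i))
    (L : Finset (Name I K W)) (hL : (L : Set (Name I K W)) ⊆ baseD α i) :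
    GoodD S (PS S α) α i L := by
  refine ⟨?_, ?_⟩
  · intro N hN
    obtain ⟨β, hβ, rfl⟩ := hL hN
    refine ⟨Set.countable_range _, ?_⟩
    rintro _ ⟨j, rfl⟩ a ha
    rw [Finset.mem_singleton] at ha
    rw [ha]
    exact WithBot.coe_lt_coe.2 hβ
  intro τ hτ m p hp
  rcases L.eq_empty_or_nonempty with rfl | hne
  · obtain ⟨j, hj, hfr⟩ := exists_fresh p m
    refine ⟨p ∪ lits ⊥ j τ, ⟨valid_add_lits hp.1 hτ.1 (hfr j le_rfl _),
      hp.2.union (below_lits (WithBot.bot_lt_coe _) _ _)⟩, Finset.subset_union_left, j, hj,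
      Finset.subset_union_right, by simp⟩
  have hL' : ∀ N ∈ L, ∃ β < α, N = gD β i := fun N hN => hL hN
  have hnW : Nonempty W := ⟨α⟩
  choose! b hb1 hb2 using hL'
  obtain ⟨N0, hN0, hmax⟩ := Finset.exists_max_image L b hne
  set β := b N0 with hβ
  have hβα : β < α := hb1 N0 hN0
  have hsub : (((L.filter fun N => b N < β) ∪ prs β (i, none) p : Finset (Name I K W)) :
      Set (Name I K W)) ⊆ FD S β i := by
    intro N hN
    rw [Finset.coe_union] at hN
    rcases hN with hN | hN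
    · rw [Finset.mem_coe, Finset.mem_filter] at hN
      exact (ih β hβα).1 ⟨b N, hN.2, hb2 N hN.1⟩
    · exact prs_none_sub hp.1 hN
  obtain ⟨q', hq', hsub', j, hj, hlits, hall⟩ :=
    ((ih β hβα).2.1 _ hsub).2 τ hτ m (Sp.rst (β : WithBot W) p) (PS.rst hp.1)
  have hr : Valid S (Al S) (q' ∪ p) := valid_amalg hp.1 hq' hsub'
  have hq := valid_add_els hr {(β, (i, none), (j, ∅))} (by simp [Ok]) (by
    intro u hu N hN
    rw [Finset.mem_singleton] at hu
    subst hu
    simp only at hN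
    rw [prs_union hq'.2] at hN
    obtain ⟨v, hv, h1, h2⟩ := hall N (Finset.mem_union_right _ hN)
    exact ⟨v, hv, h1.trans Finset.subset_union_left, h2⟩)
  have hqα : Below (α : WithBot W) q' := hq'.2.mono (WithBot.coe_le_coe.2 hβα.le)
  refine ⟨_, ⟨hq, (hqα.union hp.2).union (below_els _ ?_)⟩,
    Finset.subset_union_right.trans Finset.subset_union_left, j, hj,
    hlits.trans (Finset.subset_union_left.trans Finset.subset_union_left), ?_⟩
  · intro u hu
    rw [Finset.mem_singleton] at hu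
    subst hu
    exact WithBot.coe_lt_coe.2 hβα
  · intro N hN
    rcases (hmax N hN).lt_or_eq with h | h
    · exact (hall N (Finset.mem_union_left _ (Finset.mem_filter.2 ⟨hN, h⟩))).mono
        (Finset.subset_union_left.trans Finset.subset_union_left)
    · rw [hb2 N hN, h]
      refine ⟨_, ⟨j, rfl⟩, ?_, rfl⟩
      rw [Finset.singleton_subset_iff]
      refine Finset.mem_union_right _ ?_
      simp [hβ]

/-- a finite piece of a function -/
noncomputable def pc (x : K → Bool) (F : Finset K) : Finset (K × Bool) := F.image fun ξ => (ξ, x ξ)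

omit [LinearOrder W] [WellFoundedLT W] in
theorem mem_pc {x : K → Bool} {F : Finset K} {u : K × Bool} :
    u ∈ pc x F ↔ u.1 ∈ F ∧ x u.1 = u.2 := by
  rw [pc, Finset.mem_image]
  constructor
  · rintro ⟨ξ, hξ, rfl⟩
    exact ⟨hξ, rfl⟩
  · rintro ⟨h1, h2⟩
    exact ⟨u.1, h1, by rw [h2]⟩

theorem good_baseO {α : W} {i : I}
    (ih : ∀ β < α, IsMax (GoodO S (PS S β) β i) (baseO S β i) (FO S β i))
    (L : Finset (Name I K W)) (hL : (L : Set (Name I K W)) ⊆ baseO S α i) :
    GoodO S (PS S α) α i L := by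
  refine ⟨?_, ?_⟩
  · intro N hN
    obtain ⟨β, hβ, e, he1, he2, rfl⟩ := hL hN
    refine ⟨⟨(countable_ok _).image _, ?_⟩, ?_⟩
    · rintro _ ⟨y, _, rfl⟩ a ha
      rw [Finset.mem_singleton] at ha
      rw [ha]
      exact WithBot.coe_lt_coe.2 hβ
    · rintro _ ⟨y, hy, rfl⟩ v hv
      obtain ⟨t, ht⟩ := hy.2.2.2.1 v hv
      rw [← ht]
      exact he2 t
  intro a p hp
  rcases L.eq_empty_or_nonempty with rfl | hne
  · exact ⟨p, hp, subset_rfl, fun _ => true, by simp, by simp⟩
  have hL' : ∀ N ∈ L, ∃ β < α, ∃ e : ℕ → K, Function.Injective e ∧ (∀ t, e t ∈ S i) ∧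
      N = gO S β i e := fun N hN => hL hN
  have hnW : Nonempty W := ⟨α⟩
  have hnK : Nonempty K := by
    obtain ⟨N, hN⟩ := hne
    obtain ⟨_, _, e, _⟩ := hL' N hN
    exact ⟨e 0⟩
  choose! b hb1 e he1 he2 hb2 using hL'
  obtain ⟨N0, hN0, hmax⟩ := Finset.exists_max_image L b hne
  set β := b N0 with hβ
  have hβα : β < α := hb1 N0 hN0
  let L1 := L.filter fun N => b N < β
  let L2 := L.filter fun N => b N = β
  let Pr := L2.biUnion fun N => prs β (i, some (e N)) p
  have hsub : ((L1 ∪ Pr : Finset (Name I K W)) : Set (Name I K W)) ⊆ FO S β i := by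
    intro N hN
    rw [Finset.coe_union] at hN
    rcases hN with hN | hN
    · rw [Finset.mem_coe, Finset.mem_filter] at hN
      exact (ih β hβα).1 ⟨b N, hN.2, e N, he1 N hN.1, he2 N hN.1, hb2 N hN.1⟩
    · rw [Finset.mem_coe, Finset.mem_biUnion] at hN
      obtain ⟨N', _, hN'⟩ := hN
      exact (prs_some_sub hp.1 N hN').1
  obtain ⟨q', hq', hsub', x, hx, hall⟩ :=
    ((ih β hβα).2.1 _ hsub).2 a (Sp.rst (β : WithBot W) p) (PS.rst hp.1)
  have hall' : ∀ N ∈ L1 ∪ Pr, ∃ u ∈ N, u.1 ⊆ q' ∧ ∀ v ∈ u.2.2, x v.1 = v.2 := hall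
  have hnE : Nonempty (Cond I K W × Elt K) := ⟨(∅, (0, ∅))⟩
  choose! w hw1 hw2 hw3 using hall'
  let F : Finset K := a ∪ (L1 ∪ Pr).biUnion fun N => (w N).2.2.image Prod.fst
  have hF : ∀ N ∈ L1 ∪ Pr, ∀ v ∈ (w N).2.2, v.1 ∈ F := fun N hN v hv =>
    Finset.mem_union_right _ (Finset.mem_biUnion.2 ⟨N, hN, Finset.mem_image_of_mem _ hv⟩)
  let x' : K → Bool := fun ξ => if ξ ∈ F then x ξ else false
  have hx' : ∀ ξ ∈ F, x' ξ = x ξ := fun ξ hξ => if_pos hξ
  have hx'' : ∀ ξ, ξ ∉ F → x' ξ = false := fun ξ hξ => if_neg hξ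
  have ht : ∀ N ∈ L, ∃ t, e N t ∉ F := by
    intro N hN
    by_contra hcon
    push Not at hcon
    exact Set.infinite_range_of_injective (he1 N hN)
      (F.finite_toSet.subset (by rintro _ ⟨t, rfl⟩; exact hcon t))
  choose! t ht using ht
  let T : Name I K W → Finset (K × Bool) := fun N =>
    pc x' (insert (e N (t N)) (F.filter fun ξ => ξ ∈ Set.range (e N)))
  have hr : Valid S (Al S) (q' ∪ p) := valid_amalg hp.1 hq' hsub'
  have hOk : ∀ N ∈ L, Ok S (i, some (e N)) (0, T N) := by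
    intro N hN
    refine ⟨rfl, he1 N hN, he2 N hN, ?_, t N, ?_⟩
    · intro u hu
      rw [mem_pc, Finset.mem_insert, Finset.mem_filter] at hu
      rcases hu.1 with h | h
      · exact ⟨_, h.symm⟩
      · exact h.2
    · rw [mem_pc]
      exact ⟨Finset.mem_insert_self _ _, hx'' _ (ht N hN)⟩
  have hq := valid_add_els hr (L2.image fun N => (β, ((i, some (e N)) : Knd I K),
      ((0, T N) : Elt K))) (by
    intro u hu
    obtain ⟨N, hN, rfl⟩ := Finset.mem_image.1 hu
    exact hOk N (Finset.mem_filter.1 hN).1) (by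
    intro u hu N hN
    obtain ⟨N', hN', rfl⟩ := Finset.mem_image.1 hu
    simp only at hN
    rw [prs_union hq'.2] at hN
    have h1 : N ∈ L1 ∪ Pr := Finset.mem_union_right _ (Finset.mem_biUnion.2 ⟨N', hN', hN⟩)
    refine ⟨w N, hw1 N h1, (hw2 N h1).trans Finset.subset_union_left, ?_⟩
    intro v hv
    simp only
    rw [mem_pc, hx' _ (hF N h1 v hv)]
    refine ⟨Finset.mem_insert_of_mem (Finset.mem_filter.2 ⟨hF N h1 v hv, ?_⟩), hw3 N h1 v hv⟩
    exact (prs_some_sub hp.1 N hN).2 _ (hw1 N h1) v hv)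
  have hqα : Below (α : WithBot W) q' := hq'.2.mono (WithBot.coe_le_coe.2 hβα.le)
  refine ⟨_, ⟨hq, (hqα.union hp.2).union (below_els _ ?_)⟩,
    Finset.subset_union_right.trans Finset.subset_union_left, x', ?_, ?_⟩
  · intro u hu
    obtain ⟨N, hN, rfl⟩ := Finset.mem_image.1 hu
    exact WithBot.coe_lt_coe.2 hβα
  · intro ξ hξ
    rw [hx' ξ (Finset.mem_union_left _ hξ)]
    exact hx ξ hξ
  · intro N hN
    rcases (hmax N hN).lt_or_eq with h | h
    · have h1 : N ∈ L1 ∪ Pr := Finset.mem_union_left _ (Finset.mem_filter.2 ⟨hN, h⟩)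
      refine ⟨w N, hw1 N h1, (hw2 N h1).trans
        (Finset.subset_union_left.trans Finset.subset_union_left), fun v hv => ?_⟩
      rw [hx' _ (hF N h1 v hv)]
      exact hw3 N h1 v hv
    · have h2 : N = gO S β i (e N) := by
        rw [← h]
        exact hb2 N hN
      rw [h2]
      refine ⟨_, ⟨(0, T N), hOk N hN, rfl⟩, ?_, fun v hv => (mem_pc.1 hv).2⟩
      rw [Finset.singleton_subset_iff]
      refine Finset.mem_union_right _ (Finset.mem_image.2 ⟨(β, (i, some (e N)), (0, T N)), ?_, rfl⟩)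
      exact Finset.mem_image.2 ⟨N, Finset.mem_filter.2 ⟨hN, h⟩, rfl⟩

omit [WellFoundedLT W] in
theorem anti_GoodD {Q : Set (Cond I K W)} {α : W} {i : I} (L L' : Finset (Name I K W))
    (h : L ⊆ L') (hL : GoodD S Q α i L') : GoodD S Q α i L := by
  refine ⟨fun N hN => hL.1 N (h hN), fun τ hτ m p hp => ?_⟩
  obtain ⟨q, hq, h1, j, h2, h3, h4⟩ := hL.2 τ hτ m p hp
  exact ⟨q, hq, h1, j, h2, h3, fun N hN => h4 N (h hN)⟩

omit [WellFoundedLT W] in
theorem anti_GoodO {Q : Set (Cond I K W)} {α : W} {i : I} (L L' : Finset (Name I K W))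
    (h : L ⊆ L') (hL : GoodO S Q α i L') : GoodO S Q α i L := by
  refine ⟨fun N hN => hL.1 N (h hN), fun a p hp => ?_⟩
  obtain ⟨q, hq, h1, x, h2, h3⟩ := hL.2 a p hp
  exact ⟨q, hq, h1, x, h2, fun N hN => h3 N (h hN)⟩

theorem isMax_FD (α : W) (i : I) : IsMax (GoodD S (PS S α) α i) (baseD α i) (FD S α i) := by
  induction α using WellFoundedLT.induction with
  | ind α ih => exact famD_spec S (exists_isMax _ _ (good_baseD ih) anti_GoodD)

theorem isMax_FO (α : W) (i : I) : IsMax (GoodO S (PS S α) α i) (baseO S α i) (FO S α i) := by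
  induction α using WellFoundedLT.induction with
  | ind α ih => exact famO_spec S (exists_isMax _ _ (good_baseO ih) anti_GoodO)

end Pool.Agent.KS6_46.Sp
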