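import Mathlib
import Pool.Graph.R_seed8.Helper669.Forcing

/-!
# The high Tukey spectrum, and a sentence which makes it finite

`specPlus` is the high spectrum of Tukey types of ultrafilters on the natural numbers.
`PhiFor n Y` is a combinatorial statement about a sequence `Y 0, Y 1, ..., Y n` of linearly
ordered sets; the sentence `PhiHolds P n Y` of the forcing language is its literal translation:
subsets of the natural numbers and functions become names for them.
-/

set_option autoImplicit false

namespace Pool.Agent.KS6_46.Sp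

open Cardinal Pool.Agent.Helper669.Forcing

section Tukey

/-- Tukey reducibility: some map sends unbounded sets to unbounded sets. -/
def TukeyLE (D E : Type) [Preorder D] [Preorder E] : Prop :=
  ∃ f : D → E, ∀ X : Set D, ¬ BddAbove X → ¬ BddAbove (f '' X)

/-- Tukey equivalence. -/
def TukeyEquiv (D E : Type) [Preorder D] [Preorder E] : Prop := TukeyLE D E ∧ TukeyLE E D

/-- The high spectrum of Tukey types of ultrafilters on `ℕ`: the set of all cardinals `κ ≥ ℵ₁`
such that some nonprincipal ultrafilter `U` on `ℕ`, ordered by reverse inclusion, is Tukey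
equivalent to the set of the finite subsets of `κ`, ordered by inclusion. -/
def specPlus : Set Cardinal.{0} :=
  {κ | ℵ₁ ≤ κ ∧ ∃ U : Ultrafilter ℕ, (∀ k : ℕ, U ≠ pure k) ∧
    TukeyEquiv ({X : Set ℕ // X ∈ U}ᵒᵈ) (Finset κ.out)}

end Tukey

section Ambient

/-- `x` is an infinite set of natural numbers. -/
def Inf (x : ℕ → Prop) : Prop := ∀ m : ℕ, ∃ k, m ≤ k ∧ x k

/-- The sets `B η` are infinite, directed under reverse inclusion and decide all sets of natural
numbers; each `A ξ` contains some `B η`, and each `B η` is contained in finitely many `A ξ`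
only. -/
def PairFor {Y : Type} (A B : Y → ℕ → Prop) : Prop :=
  (∀ η, Inf (B η)) ∧
  (∀ η η', ∃ η'', ∀ k, B η'' k → B η k ∧ B η' k) ∧
  (∀ x : ℕ → Prop, ∃ η, (∀ k, B η k → x k) ∨ ∀ k, B η k → ¬ x k) ∧
  (∀ ξ, ∃ η, ∀ k, B η k → A ξ k) ∧
  ∀ η, ∃ F : Finset Y, ∀ ξ, (∀ k, B η k → A ξ k) → ξ ∈ F

/-- For every family of infinite sets indexed by `D`, one set splits all of its members. -/
def SplitFor (D : Type) : Prop :=
  ∀ Z : D → ℕ → Prop, (∀ d, Inf (Z d)) →
    ∃ c : ℕ → Prop, ∀ d, (∀ m : ℕ, ∃ k, m ≤ k ∧ Z d k ∧ c k) ∧ ∀ m : ℕ, ∃ k, m ≤ k ∧ Z d k ∧ ¬ c k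

/-- All subsets of `ℕ` can be indexed by `Y`. -/
def ContFor (Y : Type) : Prop :=
  ∃ E : Y → ℕ → Prop, ∀ x : ℕ → Prop, ∃ y, ∀ k, (E y k → x k) ∧ (x k → E y k)

/-- The statement about a sequence of linearly ordered sets: `Y 0` is infinite, every family of
infinite subsets of `ℕ` indexed by `Y 0` is split by one set, all subsets of `ℕ` can be indexed by
`Y n`, and for `i < n` all proper initial segments of `Y (i + 1)` inject into `Y i`, there is no
function from `Y i` onto `Y (i + 1)`, and there is a pair of families indexed by `Y (i + 1)` as in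
`PairFor`. -/
def PhiFor (n : ℕ) (Y : ℕ → Type) [∀ i, LinearOrder (Y i)] : Prop :=
  (∃ f : ℕ → Y 0, Function.Injective f) ∧ SplitFor (Y 0) ∧ ContFor (Y n) ∧
    ∀ i < n, (∀ a : Y (i + 1), ∃ f : {b : Y (i + 1) // b < a} → Y i, Function.Injective f) ∧
      (¬ ∃ f : Y i → Y (i + 1), Function.Surjective f) ∧
      ∃ A B : Y (i + 1) → ℕ → Prop, PairFor A B

end Ambient

section Names

variable {P : Type} [Preorder P]

/-- `φ or ψ` -/
def forr (φ ψ : Set P) : Set P := fnot (fand (fnot φ) (fnot ψ))

/-- Forcing version of `Inf`. -/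
def InfN (x : ℕ → Set P) : Set P :=
  fall fun m : ℕ => fex fun k : ℕ => fand (fground (m ≤ k)) (meets (x k))

/-- Forcing version of `PairFor`. -/
def PairN {Y : Type} (A B : Y → ℕ → Set P) : Set P :=
  fand (fall fun η => InfN (B η))
  (fand (fall fun η => fall fun η' => fex fun η'' => fall fun k =>
    fimp (meets (B η'' k)) (fand (meets (B η k)) (meets (B η' k))))
  (fand (fall fun x : ℕ → Set P => fex fun η =>
    forr (fall fun k => fimp (meets (B η k)) (meets (x k)))
      (fall fun k => fimp (meets (B η k)) (fnot (meets (x k)))))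
  (fand (fall fun ξ => fex fun η => fall fun k => fimp (meets (B η k)) (meets (A ξ k)))
  (fall fun η => fex fun F : Finset Y => fall fun ξ =>
    fimp (fall fun k => fimp (meets (B η k)) (meets (A ξ k))) (fground (ξ ∈ F))))))

variable (P) in
/-- Forcing version of `SplitFor`. -/
def SplitN (D : Type) : Set P :=
  fall fun Z : D → ℕ → Set P => fimp (fall fun d => InfN (Z d))
    (fex fun c : ℕ → Set P => fall fun d =>
      fand (fall fun m : ℕ => fex fun k : ℕ =>
          fand (fground (m ≤ k)) (fand (meets (Z d k)) (meets (c k))))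
        (fall fun m : ℕ => fex fun k : ℕ =>
          fand (fground (m ≤ k)) (fand (meets (Z d k)) (fnot (meets (c k))))))

variable (P) in
/-- Forcing version of `ContFor`. -/
def ContN (Y : Type) : Set P :=
  fex fun E : Y → ℕ → Set P => fall fun x : ℕ → Set P => fex fun y => fall fun k =>
    fand (fimp (meets (E y k)) (meets (x k))) (fimp (meets (x k)) (meets (E y k)))

variable (P) in
/-- In the extension there is no function from `X` onto `Y`. -/
def NoSurjN (X Y : Type) : Set P :=
  fnot (fex fun R : X → Y → Set P => fand (IsFun R) (IsOnto R))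

variable (P) in
/-- In the extension there is an injective function from `X` to `Y`. -/
def InjN (X Y : Type) : Set P :=
  fex fun R : X → Y → Set P => fand (IsFun R) (IsInj R)

variable (P) in
/-- The sentence `PhiFor n Y` of the forcing language. -/
def PhiHolds (n : ℕ) (Y : ℕ → Type) [∀ i, LinearOrder (Y i)] : Set P :=
  fand (InjN P ℕ (Y 0)) (fand (SplitN P (Y 0)) (fand (ContN P (Y n))
    (fall fun i : ℕ => fall fun _ : i < n =>
      fand (fall fun a : Y (i + 1) => InjN P {b : Y (i + 1) // b < a} (Y i))
        (fand (NoSurjN P (Y i) (Y (i + 1)))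
          (fex fun A : Y (i + 1) → ℕ → Set P => fex fun B : Y (i + 1) → ℕ → Set P =>
            PairN A B)))))

end Names

end Pool.Agent.KS6_46.Sp
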