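import Pool.Agent.KS6_46.Sp.Decide
import Pool.Agent.KS6_46.Sp.Sent
import Pool.Graph.R_seed8.W684.FM.Ambient

/-!
# The sentence is forced
-/

set_option autoImplicit false

namespace Pool.Agent.KS6_46.Sp

open Classical Cardinal Pool.Agent.Helper669.Forcing Pool.Agent.W684.FM

variable {I K W : Type} {S : I → Set K} [LinearOrder W] [WellFoundedLT W]

variable (W) in
/-- the poset of the iteration -/
structure PP (S : I → Set K) : Type where
  /-- the condition -/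
  c : Cond I K W
  /-- it is valid -/
  v : Valid S (Al S) c

instance : Preorder (PP W S) where
  le p q := q.1 ⊆ p.1
  le_refl p := Finset.Subset.refl _
  le_trans p q r h1 h2 := Finset.Subset.trans h2 h1

theorem PP.le_def {p q : PP W S} : p ≤ q ↔ q.1 ⊆ p.1 := Iff.rfl

theorem pccc : PCCC (PP W S) := by
  intro A hA
  have hinj : Function.Injective (PP.c : PP W S → Cond I K W) := by
    rintro ⟨p, hp⟩ ⟨q, hq⟩ h
    simp only at h
    subst h
    rfl
  have h1 : (PP.c '' A : Set (Cond I K W)).Countable := by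
    apply ccc_all (S := S)
    · rintro _ ⟨p, _, rfl⟩
      exact p.2
    · rintro _ ⟨p, hp, rfl⟩ _ ⟨q, hq, rfl⟩ hne ⟨r, hr, h1, h2⟩
      exact hA p hp q hq (fun h => hne (by rw [h])) ⟨⟨r, hr⟩, h1, h2⟩
  exact Set.countable_of_injective_of_countable_image hinj.injOn h1

instance : Nonempty (PP W S) := ⟨⟨∅, valid_empty _ _⟩⟩

/-- every set of at most `#D` stages has an upper bound -/
def Bdd (D W : Type) [LT W] : Prop := ∀ L : Set W, #L ≤ #D → ∃ α, ∀ β ∈ L, β < α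

/-- the name of a subset of `ℕ`, in both forms -/
def toN (x : ℕ → Set (PP W S)) : Name I K W :=
  {u | ∃ s ∈ x u.2.1, u.1 = s.1 ∧ u.2.2 = ∅}

theorem SfD_toN {x : ℕ → Set (PP W S)} {r : PP W S} {k : ℕ} :
    SfD r.1 (toN x) k ↔ ∃ s ∈ x k, r ≤ s := by
  constructor
  · rintro ⟨⟨u, k', τ⟩, ⟨s, hs, rfl, _⟩, h1, rfl⟩
    exact ⟨s, hs, h1⟩
  · rintro ⟨s, hs, h1⟩
    exact ⟨(s.1, (k, ∅)), ⟨s, hs, rfl, rfl⟩, h1, rfl⟩

theorem SfD_toN_meets {x : ℕ → Set (PP W S)} {r : PP W S} {k : ℕ}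
    (h : SfD r.1 (toN x) k) : r ∈ meets (x k) := by
  obtain ⟨s, hs, h1⟩ := SfD_toN.1 h
  exact meets_of_le hs h1

theorem exists_SfD_toN {x : ℕ → Set (PP W S)} {r : PP W S} {k : ℕ}
    (h : r ∈ meets (x k)) : ∃ q ≤ r, SfD q.1 (toN x) k := by
  obtain ⟨q, hq, s, hs, h1⟩ := h r le_rfl
  exact ⟨q, hq, SfD_toN.2 ⟨s, hs, h1⟩⟩

/-- countable names are names of some stage -/
theorem exists_PN {D : Type} [Infinite D] (hW : Bdd D W) (x : D → ℕ → Set (PP W S))
    (hx : ∀ d k, (x d k).Countable) : ∃ α, ∀ d, PN α (toN (x d)) := by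
  let L : Set W := ⋃ d : D, ⋃ k : ℕ, ⋃ s ∈ x d k, {β : W | ∃ a ∈ s.1, a.st = (β : WithBot W)}
  have hfin : ∀ s : PP W S, {β : W | ∃ a ∈ s.1, a.st = (β : WithBot W)}.Countable := by
    intro s
    have h1 : ((fun a : Atom I K W => a.st) '' (s.1 : Set (Atom I K W))).Countable :=
      s.1.countable_toSet.image _
    have h2 := h1.preimage (f := fun β : W => (β : WithBot W)) WithBot.coe_injective
    refine h2.mono ?_
    rintro β ⟨a, ha, h⟩
    exact ⟨a, ha, h⟩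
  have hL : #L ≤ #D := by
    refine (Cardinal.mk_iUnion_le _).trans ?_
    calc #D * _ ≤ #D * ℵ₀ := by
          refine mul_le_mul' le_rfl (ciSup_le' fun d => ?_)
          rw [Cardinal.le_aleph0_iff_set_countable]
          exact Set.countable_iUnion fun k => (hx d k).biUnion fun s _ => hfin s
      _ ≤ #D := (Cardinal.mul_eq_left (Cardinal.aleph0_le_mk D) (Cardinal.aleph0_le_mk D)
          Cardinal.aleph0_ne_zero).le
  obtain ⟨α, hα⟩ := hW L hL
  refine ⟨α, fun d => ⟨?_, ?_⟩⟩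
  · have : (⋃ k : ℕ, (fun s : PP W S => ((s.1, (k, ∅)) : Cond I K W × Elt K)) '' x d k).Countable :=
      Set.countable_iUnion fun k => (hx d k).image _
    refine this.mono ?_
    rintro ⟨u, k, τ⟩ ⟨s, hs, h1, h2⟩
    simp only at hs h1 h2
    subst h1 h2
    exact Set.mem_iUnion.2 ⟨k, s, hs, rfl⟩
  · rintro ⟨u, k, τ⟩ ⟨s, hs, h1, h2⟩ a ha
    simp only at hs h1 ha
    subst h1
    by_cases hbot : a.st = ⊥
    · rw [hbot]
      exact WithBot.bot_lt_coe _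
    · obtain ⟨β, hst⟩ := WithBot.ne_bot_iff_exists.1 hbot
      rw [← hst]
      refine WithBot.coe_lt_coe.2 (hα β ?_)
      simp only [L, Set.mem_iUnion]
      exact ⟨d, k, s, hs, a, ha, hst.symm⟩

/-- the name of the independent set with index `ξ` -/
def AN (S : I → Set K) (ξ : K) : ℕ → Set (PP W S) := fun k => {r | Atom.coh ⊥ ξ k true ∈ r.1}

/-- the name of a basic set -/
def BN (S : I → Set K) (i : I) (η : W × (ℕ → K) × ℕ × ℕ) : ℕ → Set (PP W S) :=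
  fun k => {r | InB η.1 i η.2.1 η.2.2.1 η.2.2.2 k r.1}

theorem down_BN (i : I) (η : W × (ℕ → K) × ℕ × ℕ) (k : ℕ) :
    Down (BN S i η k : Set (PP W S)) := fun _ hr _ hq => InB.mono hr hq

/-- good indices -/
def GI (S : I → Set K) (i : I) (η : W × (ℕ → K) × ℕ × ℕ) : Prop :=
  Function.Injective η.2.1 ∧ ∀ t, η.2.1 t ∈ S i

theorem decide_x {i : I} (hS : (S i).Infinite) (hW : Bdd ℕ W) (x : ℕ → Set (PP W S))
    (p : PP W S) : ∃ q ≤ p, ∃ η : W × (ℕ → K) × ℕ × ℕ, GI S i η ∧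
      ((q ∈ fall fun k => fimp (meets (BN S i η k)) (meets (x k))) ∨
        (q ∈ fall fun k => fimp (meets (BN S i η k)) (fnot (meets (x k))))) := by
  choose x' hx'c hx' using fun k => exists_countable_name pccc (x k)
  obtain ⟨α, hα⟩ := exists_PN hW (fun _ : ℕ => x') fun _ k => hx'c k
  obtain ⟨q, hq, hpq, e, he1, he2, b, m, ε, h⟩ := decide_name hS (hα 0) p.2
  refine ⟨⟨q, hq⟩, hpq, (α, e, b, m), ⟨he1, he2⟩, ?_⟩
  have key : ∀ r : PP W S, r ≤ ⟨q, hq⟩ → ∀ k, r ∈ meets (BN S i (α, e, b, m) k) →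
      ∃ r' ≤ r, r' ∈ BN S i (α, e, b, m) k ∧ (SfD r'.1 (toN x') k ↔ ε = true) := by
    intro r hr k hk
    obtain ⟨r', hr', hB⟩ := exists_of_meets (down_BN i _ k) hk
    exact ⟨r', hr', hB, h r'.1 r'.2 (hr'.trans hr) k hB⟩
  rcases ε with _ | _
  · right
    intro k
    refine mem_fimp.2 ?_
    intro r hr hk
    obtain ⟨r', hr', hB, hε⟩ := key r hr k hk
    refine ⟨r', hr', fun s hs hsx => ?_⟩
    rw [← hx'] at hsx
    obtain ⟨t, ht, htx⟩ := exists_SfD_toN hsx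
    have h1 := (h t.1 t.2 (ht.trans (hs.trans (hr'.trans hr))) k
      (InB.mono (InB.mono hB hs) ht)).1 htx
    exact absurd h1 (by simp)
  · left
    intro k
    refine mem_fimp.2 ?_
    intro r hr hk
    obtain ⟨r', hr', hB, hε⟩ := key r hr k hk
    refine ⟨r', hr', ?_⟩
    rw [← hx']
    exact SfD_toN_meets (hε.2 rfl)

variable [NoMaxOrder W] [Nonempty W]

theorem pos_BN {i : I} (H : Finset (W × (ℕ → K) × ℕ × ℕ)) (hH : ∀ η ∈ H, GI S i η) (m : ℕ)
    (p : PP W S) : ∃ q ≤ p, ∃ k, m ≤ k ∧ ∀ η ∈ H, q ∈ BN S i η k := by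
  obtain ⟨q, hq, hpq, j, hj, h⟩ := pos_B H hH m p.2
  exact ⟨⟨q, hq⟩, hpq, j, hj, h⟩

theorem inf_BN {i : I} {η : W × (ℕ → K) × ℕ × ℕ} (hη : GI S i η) (p : PP W S) :
    p ∈ InfN (BN S i η) := by
  intro m
  rw [mem_fex]
  intro q _
  obtain ⟨r, hr, k, hk, h⟩ := pos_BN {η} (by simpa using hη) m q
  exact ⟨r, hr, k, hk, meets_of_mem (h η (Finset.mem_singleton_self _))⟩

theorem dir_BN {i : I} (hS : (S i).Infinite) (hW : Bdd ℕ W) {η η' : W × (ℕ → K) × ℕ × ℕ}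
    (hη : GI S i η) (hη' : GI S i η') (p : PP W S) :
    ∃ q ≤ p, ∃ η'', GI S i η'' ∧ q ∈ fall fun k =>
      fimp (meets (BN S i η'' k)) (fand (meets (BN S i η k)) (meets (BN S i η' k))) := by
  obtain ⟨q, hq, η'', hη'', h⟩ := decide_x hS hW
    (fun k => {r | r ∈ BN S i η k ∧ r ∈ BN S i η' k}) p
  refine ⟨q, hq, η'', hη'', ?_⟩
  rcases h with h | h
  · intro k
    rw [mem_fimp]
    intro r hr hk
    obtain ⟨r', hr', h1⟩ := mem_fimp.1 (h k) r hr hk
    refine ⟨r', hr', ?_, ?_⟩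
    · intro s hs
      obtain ⟨t, ht, u, hu, htu⟩ := h1 s hs
      exact ⟨t, ht, u, hu.1, htu⟩
    · intro s hs
      obtain ⟨t, ht, u, hu, htu⟩ := h1 s hs
      exact ⟨t, ht, u, hu.2, htu⟩
  · exfalso
    obtain ⟨r, hr, k, _, h1⟩ := pos_BN {η, η', η''} (by
      intro ζ hζ
      simp only [Finset.mem_insert, Finset.mem_singleton] at hζ
      rcases hζ with rfl | rfl | rfl <;> assumption) 0 q
    obtain ⟨r', hr', h2⟩ := mem_fimp.1 (h k) r hr (meets_of_mem (h1 η'' (by simp)))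
    refine h2 r' le_rfl (meets_of_mem ⟨?_, ?_⟩)
    · exact down_BN i _ k _ (h1 η (by simp)) _ hr'
    · exact down_BN i _ k _ (h1 η' (by simp)) _ hr'

theorem few_BN {i : I} {η : W × (ℕ → K) × ℕ × ℕ}
    (hη : GI S i η) (p : PP W S) :
    ∃ q ≤ p, ∃ F : Finset K, ∀ ξ ∈ S i, ξ ∉ F → q ∈ fnot (fall fun k =>
      fimp (meets (BN S i η k)) (meets (AN S ξ k))) := by
  obtain ⟨q, hq, hpq, F, hF⟩ := few_B η.1 hη.1 hη.2 η.2.2.1 η.2.2.2 p.2
  refine ⟨⟨q, hq⟩, hpq, F, fun ξ hξ hξF r hr hcon => ?_⟩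
  obtain ⟨r', hr', hrr', j, hj1, hj2⟩ := hF ξ hξ hξF r.1 r.2 hr
  have h1 : (⟨r', hr'⟩ : PP W S) ∈ meets (BN S i η j) := meets_of_mem hj1
  obtain ⟨s, hs, h2⟩ := mem_fimp.1 (hcon j) ⟨r', hr'⟩ hrr' h1
  obtain ⟨t, ht, u, hu, htu⟩ := h2 s le_rfl
  exact t.2.coh _ _ _ (htu hu) (ht (hs hj2))

/-- the sentence about one pair of families -/
theorem pair_forced {i : I} (hS : (S i).Infinite) (hW : Bdd ℕ W) {Y : Type} (g : Y → K)
    (hg1 : Function.Injective g) (hg2 : Set.range g = S i)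
    (f : Y → W × (ℕ → K) × ℕ × ℕ) (hf1 : ∀ y, GI S i (f y)) (hf2 : ∀ η, GI S i η → ∃ y, f y = η)
    (p : PP W S) : p ∈ PairN (fun y => AN S (g y)) (fun y => BN S i (f y)) := by
  refine ⟨fun η => inf_BN (hf1 η) p, ?_, ?_, ?_, ?_⟩
  · intro η η'
    rw [mem_fex]
    intro q _
    obtain ⟨r, hr, η'', hη'', h⟩ := dir_BN hS hW (hf1 η) (hf1 η') q
    obtain ⟨y, rfl⟩ := hf2 η'' hη''
    exact ⟨r, hr, y, h⟩
  · intro x
    rw [mem_fex]
    intro q _
    obtain ⟨r, hr, η, hη, h⟩ := decide_x hS hW x q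
    obtain ⟨y, rfl⟩ := hf2 η hη
    refine ⟨r, hr, y, ?_⟩
    rintro s hs ⟨h1, h2⟩
    rcases h with h | h
    · exact h1 s le_rfl (down_fall (fun _ => down_fimp _ _) _ h _ hs)
    · exact h2 s le_rfl (down_fall (fun _ => down_fimp _ _) _ h _ hs)
  · intro ξ
    obtain ⟨e, he1, he2, he3⟩ := exists_enum (C := {g ξ}) hS (Set.countable_singleton _) (by
      rw [Set.singleton_subset_iff, ← hg2]
      exact ⟨ξ, rfl⟩)
    obtain ⟨t, ht⟩ := he3 (Set.mem_singleton _)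
    have α : W := Classical.arbitrary W
    obtain ⟨y, hy⟩ := hf2 (α, e, t + 1, 0) ⟨he1, he2⟩
    refine mem_fex_of_mem y (down_fall fun _ => down_fimp _ _) ?_
    intro k
    rw [mem_fimp]
    intro r hr hk
    obtain ⟨r', hr', hB⟩ := exists_of_meets (down_BN i _ k) hk
    refine ⟨r', hr', meets_of_mem ?_⟩
    rw [hy] at hB
    have h1 := hB.2.2.2 t (Nat.lt_succ_self t)
    simp only [ht] at h1
    exact h1
  · intro η
    rw [mem_fex]
    intro q _
    obtain ⟨r, hr, F, hF⟩ := few_BN (hf1 η) q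
    refine ⟨r, hr, F.preimage g hg1.injOn, fun ξ => ?_⟩
    rw [mem_fimp]
    intro s hs h
    refine ⟨s, le_rfl, ?_⟩
    show ξ ∈ F.preimage g hg1.injOn
    rw [Finset.mem_preimage]
    by_contra hcon
    exact hF (g ξ) (by rw [← hg2]; exact ⟨ξ, rfl⟩) hcon s hs h

omit [NoMaxOrder W] [Nonempty W] in
theorem split_forced {D : Type} [Infinite D] (hW : Bdd D W) [Nonempty K] (p : PP W S) :
    p ∈ SplitN (PP W S) D := by
  intro Z
  rw [mem_fimp]
  intro q _ hq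
  choose Z' hZ'c hZ' using fun d k => exists_countable_name pccc (Z d k)
  obtain ⟨α, hα⟩ := exists_PN hW Z' hZ'c
  let ξ : K := Classical.arbitrary K
  refine ⟨q, le_rfl, ?_⟩
  let c : ℕ → Set (PP W S) := fun k => {r | Atom.coh α ξ k true ∈ r.1}
  have key : ∀ d, ∀ r ≤ q, ∀ m b, ∃ s ≤ r, ∃ k, m ≤ k ∧ s ∈ meets (Z d k) ∧
      Atom.coh α ξ k b ∈ s.1 := by
    intro d r hr m b
    obtain ⟨s, hs, hrs, k, hk, h1, h2⟩ := split_name (hα d) r.2 (by
      intro m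
      obtain ⟨s, hs, k, hk, h1⟩ := mem_fex.1 (hq d m) r hr
      rw [← hZ'] at h1
      obtain ⟨t, ht, h2⟩ := exists_SfD_toN h1
      exact ⟨t.1, t.2, ht.trans hs, k, hk, h2⟩) m ξ b
    refine ⟨⟨s, hs⟩, hrs, k, hk, ?_, h2⟩
    rw [← hZ']
    exact SfD_toN_meets (r := ⟨s, hs⟩) h1
  refine mem_fex_of_mem c (down_fall fun _ => down_fand (down_fall fun _ => down_fex _)
    (down_fall fun _ => down_fex _)) ?_
  intro d
  refine ⟨fun m => ?_, fun m => ?_⟩
  · rw [mem_fex]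
    intro r hr
    obtain ⟨s, hs, k, hk, h1, h2⟩ := key d r hr m true
    exact ⟨s, hs, k, hk, h1, meets_of_mem h2⟩
  · rw [mem_fex]
    intro r hr
    obtain ⟨s, hs, k, hk, h1, h2⟩ := key d r hr m false
    refine ⟨s, hs, k, hk, h1, fun t ht htc => ?_⟩
    obtain ⟨u, hu, v, hv, huv⟩ := htc t le_rfl
    exact u.2.coh _ _ _ (huv hv) (hu (ht h2))

omit [LinearOrder W] [WellFoundedLT W] [NoMaxOrder W] [Nonempty W] in
theorem noSurj_forced {P : Type} [Preorder P] (hP : PCCC P) {X Y : Type} (h : #X * ℵ₀ < #Y)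
    (p : P) : p ∈ NoSurjN P X Y := by
  intro q _ hq
  obtain ⟨r, _, R, hR1, hR2⟩ := mem_fex.1 hq q le_rfl
  have h1 : ∀ y : Y, ∃ s ≤ r, ∃ x : X, s ∈ meets (R x y) := fun y =>
    mem_fex.1 (hR2 y) r le_rfl
  choose f hf x hx using h1
  obtain ⟨y, y', hne, hz, s, hs1, hs2⟩ := hP.exists_compat_same (X := Y) (Z := X) h f x
  apply hne
  refine IsFun.unique (down_IsFun R r hR1 s (hs1.trans (hf y))) (down_meets _ _ (hx y) s hs1) ?_
  rw [hz]
  exact down_meets _ _ (hx y') s hs2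

omit [LinearOrder W] [WellFoundedLT W] [NoMaxOrder W] [Nonempty W] in
theorem cont_forced {P : Type} [Preorder P] (hP : PCCC P) {Y : Type}
    (g : Y → ℕ → ℕ → Option P) (hg : Function.Surjective g) (p : P) : p ∈ ContN P Y := by
  refine mem_fex_of_mem (fun y k => {r | ∃ n, g y k n = some r})
    (down_fall fun _ => down_fex _) ?_
  intro x
  choose x' hx'c hx' using fun k => exists_countable_name hP (x k)
  have h1 : ∀ k, ∃ h : ℕ → Option P, ∀ r, r ∈ x' k ↔ ∃ n, h n = some r := by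
    intro k
    rcases (x' k).eq_empty_or_nonempty with h | h
    · exact ⟨fun _ => none, fun s => by simp [h]⟩
    · obtain ⟨h, hh⟩ := (hx'c k).exists_eq_range h
      refine ⟨fun n => some (h n), fun s => ?_⟩
      rw [hh]
      simp
  choose h hh using h1
  obtain ⟨y, hy⟩ := hg h
  refine mem_fex_of_mem y (down_fall fun _ => down_fand (down_fimp _ _) (down_fimp _ _)) ?_
  intro k
  have h2 : {r | ∃ n, g y k n = some r} = x' k := by
    ext r
    rw [hh, hy]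
    rfl
  refine ⟨?_, ?_⟩
  · refine mem_fimp.2 fun r _ hr => ⟨r, le_rfl, ?_⟩
    rw [← hx', ← h2]
    exact hr
  · refine mem_fimp.2 fun r _ hr => ⟨r, le_rfl, ?_⟩
    rw [← hx', ← h2] at hr
    exact hr

end Pool.Agent.KS6_46.Sp
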