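import Pool.Agent.KS6_46.Sp.Dec

/-!
# Deciding names by the generic sets
-/

set_option autoImplicit false

namespace Pool.Agent.KS6_46.Sp

open Classical

variable {I K W : Type} {S : I → Set K} [LinearOrder W] [WellFoundedLT W]

omit [LinearOrder W] [WellFoundedLT W] in
theorem coh_notMem_of_below [LinearOrder W] {α : W} {p : Cond I K W}
    (hp : Below (α : WithBot W) p) (ξ : K) (j : ℕ) (b : Bool) :
    Atom.coh (α : WithBot W) ξ j b ∉ p := fun h => lt_irrefl _ (hp _ h)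

/-- A countable family of mutually incompatible pairs `(q, τ)` with members of `FD` deciding `X`
below them. -/
structure Book (S : I → Set K) (α : W) (i : I) (X : Name I K W) (A : Set (Cond I K W))
    (qf : Cond I K W → Cond I K W) (τf : Cond I K W → Finset (K × Bool))
    (εf : Cond I K W → Bool) (Yf : Cond I K W → Name I K W) : Prop where
  cnt : A.Countable
  mem : ∀ a ∈ A, qf a ∈ PS S α ∧ Gd S i (τf a) ∧ Yf a ∈ FD S α i ∧
    Dec S α X (εf a) (qf a) (τf a) (Yf a)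
  anti : ∀ a ∈ A, ∀ a' ∈ A, (∃ r ∈ PS S α, qf a ⊆ r ∧ qf a' ⊆ r) →
    (∀ ξ, (ξ, true) ∈ τf a ∪ τf a' → (ξ, false) ∉ τf a ∪ τf a') → a = a'
  pre : ∀ q ∈ PS S α, ∀ τ, Gd S i τ → ∃ a ∈ A, ∃ r ∈ PS S α, q ⊆ r ∧ qf a ⊆ r ∧
    Gd S i (τ ∪ τf a)

theorem exists_book {α : W} {i : I} {X : Name I K W} (hX : PN α X) :
    ∃ A qf τf εf Yf, Book S α i X A qf τf εf Yf := by
  let Φ : Set (Cond I K W) := {a | ∃ q ∈ PS S α, ∃ τ, Gd S i τ ∧ ∃ ε, ∃ Y ∈ FD S α i,
    Dec S α X ε q τ Y ∧ a = q ∪ lits (α : WithBot W) 0 τ}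
  have hv : ∀ q ∈ PS S α, ∀ τ : Finset (K × Bool), (∀ ξ, (ξ, true) ∈ τ → (ξ, false) ∉ τ) →
      Valid S (Al S) (q ∪ lits (α : WithBot W) 0 τ) := fun q hq τ hτ =>
    valid_add_lits hq.1 hτ fun ξ b => coh_notMem_of_below hq.2 ξ 0 b
  have hΦ : Φ ⊆ {p : Cond I K W | Valid S (Al S) p} := by
    rintro _ ⟨q, hq, τ, hτ, ε, Y, _, _, rfl⟩
    exact hv q hq τ hτ.1
  obtain ⟨A, hA1, hA2, hA3, hA4⟩ := exists_pre (ccc_all (S := S)) Φ hΦ
  have hch : ∀ a ∈ A, ∃ q ∈ PS S α, ∃ τ, Gd S i τ ∧ ∃ ε, ∃ Y ∈ FD S α i,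
    Dec S α X ε q τ Y ∧ a = q ∪ lits (α : WithBot W) 0 τ := fun a ha => hA1 ha
  have hn1 : Nonempty (Name I K W) := ⟨∅⟩
  choose! qf h1 τf h2 εf Yf h3 h4 h5 using hch
  refine ⟨A, qf, τf, εf, Yf, hA2, fun a ha => ⟨h1 a ha, h2 a ha, h3 a ha, h4 a ha⟩, ?_, ?_⟩
  · rintro a ha a' ha' ⟨r, hr, hr1, hr2⟩ hcons
    by_contra hne
    refine hA3 a ha a' ha' hne ⟨_, hv r hr _ hcons, ?_, ?_⟩
    · exact (h5 a ha).subset.trans
        (Finset.union_subset_union hr1 (lits_mono Finset.subset_union_left))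
    · exact (h5 a' ha').subset.trans
        (Finset.union_subset_union hr2 (lits_mono Finset.subset_union_right))
  · intro q hq τ hτ
    obtain ⟨q', hq', hqq', τ', hτ', hττ', ε, Y, hY, hdec⟩ := exists_dec hX hq hτ
    obtain ⟨a, ha, r, hr, hr1, hr2⟩ := hA4 (q' ∪ lits (α : WithBot W) 0 τ')
      ⟨q', hq', τ', hτ', ε, Y, hY, hdec, rfl⟩
    rw [h5 a ha] at hr2
    have hr' : Valid S (Al S) r := hr
    refine ⟨a, ha, rst (α : WithBot W) r, PS.rst hr', ?_, ?_, ?_, ?_⟩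
    · exact subset_rst ((hqq'.trans Finset.subset_union_left).trans hr1) hq.2
    · exact subset_rst (Finset.subset_union_left.trans hr2) (h1 a ha).2
    · have key : ∀ ξ b, (ξ, b) ∈ τ ∪ τf a → Atom.coh (α : WithBot W) ξ 0 b ∈ r := by
        intro ξ b h
        rcases Finset.mem_union.1 h with h | h
        · exact hr1 (Finset.mem_union_right _ (mem_lits.2 ⟨_, hττ' h, rfl⟩))
        · exact hr2 (Finset.mem_union_right _ (mem_lits.2 ⟨_, h, rfl⟩))
      exact fun ξ ht hf => hr'.coh _ _ _ (key _ _ ht) (key _ _ hf)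
    · intro u hu
      rcases Finset.mem_union.1 hu with h | h
      · exact hτ.2 u h
      · exact (h2 a ha).2 u h

variable {α : W} {i : I} {X : Name I K W} {A : Set (Cond I K W)}
    {qf : Cond I K W → Cond I K W} {τf : Cond I K W → Finset (K × Bool)}
    {εf : Cond I K W → Bool} {Yf : Cond I K W → Name I K W}

/-- gluing the members of `FD` -/
noncomputable def glueD (A : Set (Cond I K W))
    (qf : Cond I K W → Cond I K W) (τf : Cond I K W → Finset (K × Bool))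
    (Yf : Cond I K W → Name I K W) : Name I K W :=
  ⋃ a ∈ A, (fun u : Cond I K W × Elt K => (qf a ∪ lits ⊥ u.2.1 (τf a) ∪ u.1, u.2)) '' Yf a

theorem Book.glueD_mem (h : Book S α i X A qf τf εf Yf) : glueD A qf τf Yf ∈ FD S α i := by
  refine mem_FD ⟨?_, ?_⟩ ?_
  · exact h.cnt.biUnion fun a ha => (famD_pn S (h.mem a ha).2.2.1).1.image _
  · intro v hv
    simp only [glueD, Set.mem_iUnion] at hv
    obtain ⟨a, ha, u, hu, rfl⟩ := hv
    exact ((h.mem a ha).1.2.union (below_lits (WithBot.bot_lt_coe _) _ _)).union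
      ((famD_pn S (h.mem a ha).2.2.1).2 u hu)
  · intro L hL τ hτ m p hp
    obtain ⟨a, ha, r, hr, hpr, har, hτa⟩ := h.pre p hp τ hτ
    have h1 : ((insert (Yf a) L : Finset (Name I K W)) : Set (Name I K W)) ⊆ FD S α i := by
      rw [Finset.coe_insert]
      exact Set.insert_subset (h.mem a ha).2.2.1 hL
    obtain ⟨q, hq, hrq, j, hj, hl, hall⟩ := FD_good h1 hτa m hr
    refine ⟨q, hq, hpr.trans hrq, j, hj, (lits_mono Finset.subset_union_left).trans hl, ?_,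
      fun N' hN' => hall N' (Finset.mem_insert_of_mem hN')⟩
    obtain ⟨u, hu, hu1, rfl⟩ := hall (Yf a) (Finset.mem_insert_self _ _)
    refine ⟨(qf a ∪ lits ⊥ u.2.1 (τf a) ∪ u.1, u.2), Set.mem_biUnion ha ⟨u, hu, rfl⟩, ?_, rfl⟩
    exact Finset.union_subset (Finset.union_subset (har.trans hrq)
      ((lits_mono Finset.subset_union_right).trans hl)) hu1

/-- the open set where the sign is `ε` -/
def glueO (A : Set (Cond I K W)) (qf : Cond I K W → Cond I K W)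
    (τf : Cond I K W → Finset (K × Bool)) (εf : Cond I K W → Bool) (ε : Bool) : Name I K W :=
  (fun a => (qf a, (0, τf a))) '' {a ∈ A | εf a = ε}

/-- adding the conditions in `B` -/
def addO (B : Set (Cond I K W)) (N : Name I K W) : Name I K W :=
  N ∪ (fun s => (s, (0, ∅))) '' B

theorem Book.sign (h : Book S α i X A qf τf εf Yf) {p : Cond I K W} (hp : p ∈ PS S α) :
    ∃ q ∈ PS S α, p ⊆ q ∧ ∃ ε, ∃ B ⊆ PS S α, (∀ s ∈ B, ¬ ∃ r ∈ PS S α, s ⊆ r ∧ q ⊆ r) ∧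
      addO B (glueO A qf τf εf ε) ∈ FO S α i := by
  have hPN : ∀ ε, ∀ B ⊆ PS S α, B.Countable → PN α (addO B (glueO A qf τf εf ε)) := by
    intro ε B hB hBc
    refine ⟨Set.Countable.union (Set.Countable.image (h.cnt.mono fun a ha => ha.1) _)
      (hBc.image _), ?_⟩
    rintro _ (⟨a, ⟨ha, _⟩, rfl⟩ | ⟨s, hs, rfl⟩)
    · exact (h.mem a ha).1.2
    · exact (hB hs).2
  have hsup : ∀ ε, ∀ B : Set (Cond I K W), ∀ u ∈ addO B (glueO A qf τf εf ε),
      ∀ v ∈ u.2.2, v.1 ∈ S i := by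
    rintro ε B _ (⟨a, ⟨ha, _⟩, rfl⟩ | ⟨s, hs, rfl⟩) v hv
    · exact (h.mem a ha).2.1.2 v hv
    · simp at hv
  have hadd : ∀ (ε : Bool) (B : Set (Cond I K W)) (r s : Cond I K W) (x : K → Bool), s ∈ B →
      s ⊆ r → SfO r (addO B (glueO A qf τf εf ε)) x := fun ε B r s x hs hsr =>
    ⟨(s, (0, ∅)), Or.inr ⟨s, hs, rfl⟩, hsr, by simp⟩
  obtain ⟨B, hB1, hB2, hB3, hB4⟩ := exists_inc (S := S) (α := α) p
  by_cases hmem : addO B (glueO A qf τf εf true) ∈ FO S α i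
  · exact ⟨p, hp, subset_rfl, true, B, hB1, hB3, hmem⟩
  have h0 : ¬ ∀ L : Finset (Name I K W), (L : Set (Name I K W)) ⊆ FO S α i →
      ∀ a : Finset K, ∀ p ∈ PS S α, ∃ q ∈ PS S α, p ⊆ q ∧
        ∃ x : K → Bool, (∀ ξ ∈ a, x ξ = true) ∧ SfO q (addO B (glueO A qf τf εf true)) x ∧
          ∀ N' ∈ L, SfO q N' x := fun h => hmem (mem_FO (hPN _ _ hB1 hB2) (hsup _ _) h)
  push Not at h0
  obtain ⟨L, hL, a₁, p₁, hp₁, h0⟩ := h0
  have h0' : ∀ q ∈ PS S α, p₁ ⊆ q → ∀ x : K → Bool, (∀ ξ ∈ a₁, x ξ = true) →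
      (∀ N ∈ L, SfO q N x) → ¬ SfO q (addO B (glueO A qf τf εf true)) x := by
    intro q hq h1 x h2 h3 h4
    obtain ⟨N, hN, h6⟩ := h0 q hq h1 x h2 h4
    exact h6 (h3 N hN)
  have hcomp : ∃ r ∈ PS S α, p₁ ⊆ r ∧ p ⊆ r := by
    by_contra hcon
    obtain ⟨s, hs, r, hr, h1, h2⟩ := hB4 p₁ hp₁ hcon
    obtain ⟨q, hq, hrq, x, hx, hall⟩ := FO_good hL a₁ hr
    exact h0' q hq (h1.trans hrq) x hx hall (hadd _ _ _ s x hs (h2.trans hrq))
  obtain ⟨q, hq, hq1, hq2⟩ := hcomp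
  obtain ⟨B', hB1', hB2', hB3', hB4'⟩ := exists_inc (S := S) (α := α) q
  refine ⟨q, hq, hq2, false, B', hB1', hB3', mem_FO (hPN _ _ hB1' hB2') (hsup _ _) ?_⟩
  intro L' hL' a' p' hp'
  by_cases hcomp' : ∃ r ∈ PS S α, p' ⊆ r ∧ q ⊆ r
  swap
  · obtain ⟨s, hs, r, hr, h1, h2⟩ := hB4' p' hp' hcomp'
    obtain ⟨q₂, hq₂, hrq, x, hx, hall⟩ := FO_good hL' a' hr
    exact ⟨q₂, hq₂, h1.trans hrq, x, hx, hadd _ _ _ s x hs (h2.trans hrq), hall⟩
  obtain ⟨r, hr, hr1, hr2⟩ := hcomp'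
  have hLL : ((L ∪ L' : Finset (Name I K W)) : Set (Name I K W)) ⊆ FO S α i := by
    rw [Finset.coe_union]
    exact Set.union_subset hL hL'
  obtain ⟨q₂, hq₂, hrq₂, x, hx, hall⟩ := FO_good hLL (a₁ ∪ a') hr
  have hall' : ∀ N ∈ L ∪ L', ∃ u ∈ N, u.1 ⊆ q₂ ∧ ∀ v ∈ u.2.2, x v.1 = v.2 := hall
  have hnE : Nonempty (Cond I K W × Elt K) := ⟨(∅, (0, ∅))⟩
  choose! w hw1 hw2 hw3 using hall'
  let F : Finset K := (a₁ ∪ a') ∪ (L ∪ L').biUnion fun N => (w N).2.2.image Prod.fst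
  have hF : ∀ N ∈ L ∪ L', ∀ v ∈ (w N).2.2, v.1 ∈ F := fun N hN v hv =>
    Finset.mem_union_right _ (Finset.mem_biUnion.2 ⟨N, hN, Finset.mem_image_of_mem _ hv⟩)
  have hτ : Gd S i (pc x (F.filter fun ξ => ξ ∈ S i)) := by
    refine ⟨fun ξ ht hf => ?_, fun u hu => ?_⟩
    · rw [mem_pc] at ht hf
      have := ht.2.symm.trans hf.2
      simp at this
    · rw [mem_pc, Finset.mem_filter] at hu
      exact hu.1.2
  obtain ⟨a, ha, q₃, hq₃, h23, ha3, hτa⟩ := h.pre q₂ hq₂ _ hτ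
  let x' : K → Bool := fun ξ => if (ξ, true) ∈ τf a then true else
    if (ξ, false) ∈ τf a then false else x ξ
  have hx'1 : ∀ v ∈ τf a, x' v.1 = v.2 := by
    rintro ⟨ξ, b⟩ hv
    rcases b with _ | _
    · have h1 : (ξ, true) ∉ τf a := fun h1 => (h.mem a ha).2.1.1 ξ h1 hv
      simp only [x', if_neg h1, if_pos hv]
    · simp only [x', if_pos hv]
  have hx'2 : ∀ ξ ∈ F, x' ξ = x ξ := by
    intro ξ hξ
    by_cases hS : ξ ∈ S i
    · have h1 : (ξ, x ξ) ∈ pc x (F.filter fun ξ => ξ ∈ S i) :=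
        mem_pc.2 ⟨Finset.mem_filter.2 ⟨hξ, hS⟩, rfl⟩
      by_cases h2 : (ξ, true) ∈ τf a
      · simp only [x', if_pos h2]
        by_contra h3
        have h4 : x ξ = false := by
          rcases hb : x ξ with _ | _
          · rfl
          · exact absurd hb.symm h3
        rw [h4] at h1
        exact hτa.1 ξ (Finset.mem_union_right _ h2) (Finset.mem_union_left _ h1)
      · by_cases h3 : (ξ, false) ∈ τf a
        · simp only [x', if_neg h2, if_pos h3]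
          by_contra h5
          have h4 : x ξ = true := by
            rcases hb : x ξ with _ | _
            · exact absurd hb.symm h5
            · rfl
          rw [h4] at h1
          exact hτa.1 ξ (Finset.mem_union_left _ h1) (Finset.mem_union_right _ h3)
        · simp only [x', if_neg h2, if_neg h3]
    · have h2 : ∀ b, (ξ, b) ∉ τf a := fun b hb => hS ((h.mem a ha).2.1.2 _ hb)
      simp only [x', if_neg (h2 _)]
  have hsat : ∀ N ∈ L ∪ L', SfO q₃ N x' := fun N hN =>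
    ⟨w N, hw1 N hN, (hw2 N hN).trans h23, fun v hv => by
      rw [hx'2 _ (hF N hN v hv)]
      exact hw3 N hN v hv⟩
  have hε : εf a = false := by
    by_contra hcon
    have hε : εf a = true := by
      rcases hb : εf a with _ | _
      · exact absurd hb hcon
      · rfl
    refine h0' q₃ hq₃ (hq1.trans (hr2.trans (hrq₂.trans h23))) x' ?_
      (fun N hN => hsat N (Finset.mem_union_left _ hN)) ?_
    · intro ξ hξ
      rw [hx'2 ξ (Finset.mem_union_left _ (Finset.mem_union_left _ hξ))]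
      exact hx ξ (Finset.mem_union_left _ hξ)
    · exact ⟨(qf a, (0, τf a)), Or.inl ⟨a, ⟨ha, hε⟩, rfl⟩, ha3, hx'1⟩
  refine ⟨q₃, hq₃, hr1.trans (hrq₂.trans h23), x', ?_, ?_, fun N hN =>
    hsat N (Finset.mem_union_right _ hN)⟩
  · intro ξ hξ
    rw [hx'2 ξ (Finset.mem_union_left _ (Finset.mem_union_right _ hξ))]
    exact hx ξ (Finset.mem_union_right _ hξ)
  · exact ⟨(qf a, (0, τf a)), Or.inl ⟨a, ⟨ha, hε⟩, rfl⟩, ha3, hx'1⟩

end Pool.Agent.KS6_46.Sp
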