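import Pool.Agent.KS6_46.Sp.Card

/-!
# The forcing exists
-/

set_option autoImplicit false

namespace Pool.Agent.KS6_46.Sp

open Classical Cardinal Pool.Agent.Helper669.Forcing Pool.Agent.W684.FM

/-- the index set of the Cohen reals -/
abbrev KK (n : ℕ) : Type := Σ i : Fin n, YY (i.1 + 1)

/-- the parts of the index set -/
def SS (n : ℕ) (i : Fin n) : Set (KK n) := {ξ | ξ.1 = i}

theorem mk_KK_le (n : ℕ) : #(KK n) ≤ cc n := by
  rw [Cardinal.mk_sigma]
  refine (Cardinal.sum_le_sum _ (fun _ => cc n) fun i => ?_).trans ?_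
  · rw [mk_YY]
    exact cc_mono i.2
  · rw [Cardinal.sum_const']
    calc #(Fin n) * cc n ≤ cc n * cc n := by
          refine mul_le_mul' ?_ le_rfl
          exact (Cardinal.mk_le_aleph0).trans (aleph0_le_cc n)
      _ = cc n := Cardinal.mul_eq_self (aleph0_le_cc n)

/-- the embedding of a part -/
def emb (n : ℕ) (i : Fin n) (y : YY (i.1 + 1)) : KK n := ⟨i, y⟩

theorem emb_injective (n : ℕ) (i : Fin n) : Function.Injective (emb n i) := by
  intro y y' h
  simpa [emb] using h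

theorem range_emb (n : ℕ) (i : Fin n) : Set.range (emb n i) = SS n i := by
  ext ξ
  constructor
  · rintro ⟨y, rfl⟩
    rfl
  · obtain ⟨j, y⟩ := ξ
    intro h
    have h1 : j = i := h
    subst h1
    exact ⟨y, rfl⟩

theorem mk_SS_le (n : ℕ) (i : Fin n) : #(SS n i) ≤ cc (i.1 + 1) := by
  rw [← range_emb, ← mk_YY (i.1 + 1)]
  exact Cardinal.mk_range_le

theorem SS_infinite (n : ℕ) (i : Fin n) : (SS n i).Infinite := by
  rw [← range_emb]
  have : Infinite (YY (i.1 + 1)) :=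
    Cardinal.infinite_iff.2 (by rw [mk_YY]; exact aleph0_le_cc _)
  exact Set.infinite_range_of_injective (emb_injective n i)

theorem mk_GI_le (n : ℕ) (i : Fin n) :
    #{η : YY 1 × (ℕ → KK n) × ℕ × ℕ // GI (SS n) i η} ≤ #(YY (i.1 + 1)) := by
  rw [mk_YY]
  have h0 := aleph0_le_cc (i.1 + 1)
  have hnat : #ℕ ≤ cc (i.1 + 1) := by rw [mk_nat]; exact h0
  refine (Cardinal.mk_le_of_injective (f := fun η : {η : YY 1 × (ℕ → KK n) × ℕ × ℕ //
      GI (SS n) i η} => ((η.1.1, fun t => ⟨η.1.2.1 t, η.2.2 t⟩, η.1.2.2.1, η.1.2.2.2) :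
      YY 1 × (ℕ → SS n i) × ℕ × ℕ)) ?_).trans ?_
  · rintro ⟨⟨a, e, b, m⟩, h⟩ ⟨⟨a', e', b', m'⟩, h'⟩ heq
    simp only [Prod.mk.injEq] at heq
    obtain ⟨rfl, he, rfl, rfl⟩ := heq
    have : e = e' := by
      funext t
      exact congrArg Subtype.val (congrFun he t)
    subst this
    rfl
  · refine prod_le h0 ?_ (prod_le h0 (pow_fun_le (cc_pow _) (mk_SS_le n i))
      (prod_le h0 hnat hnat))
    rw [mk_YY]
    exact cc_mono (by omega)

theorem exists_forcing (n : ℕ) (hn : 1 ≤ n) :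
    ∃ (P : Type) (_ : Preorder P), Nonempty P ∧ ∀ p : P,
      p ∈ CardinalsPreserved.{0, 0} P ∧ p ∈ PhiHolds P n YY := by
  have hbdd : Sp.Bdd (YY 0) (YY 1) := bdd_of (mk_YY 0) (aleph0_le_cc 0)
  have hinf : Infinite (YY 0) := Cardinal.infinite_iff.2 (by rw [mk_YY]; exact aleph0_le_cc 0)
  have hbddN : Sp.Bdd ℕ (YY 1) := hbdd.of_le (by rw [mk_nat]; exact Cardinal.aleph0_le_mk _)
  have hne : Nonempty (YY 1) := by
    obtain ⟨α, _⟩ := hbdd ∅ (by simp)
    exact ⟨α⟩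
  have hmax : NoMaxOrder (YY 1) := by
    refine ⟨fun a => ?_⟩
    obtain ⟨α, hα⟩ := hbddN {a} (by simp)
    exact ⟨α, hα a (Set.mem_singleton a)⟩
  have hK : Nonempty (KK n) := by
    obtain ⟨α⟩ := hne
    exact ⟨⟨⟨0, hn⟩, α⟩⟩
  have h0 := aleph0_le_cc n
  refine ⟨PP (YY 1) (SS n), inferInstance, inferInstance, fun p => ?_⟩
  obtain ⟨f0, hf0⟩ := inf_YY
  refine ⟨pccc.cardinalsPreserved p, inj_forced f0 hf0 p, split_forced hbdd p, ?_, ?_⟩
  · have hP : #(PP (YY 1) (SS n)) ≤ cc n := by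
      have h1 : #(Atom (Fin n) (KK n) (YY 1)) ≤ cc n := by
        refine mk_atom_le h0 (cc_pow n) ((Cardinal.mk_le_aleph0).trans h0) (mk_KK_le n) ?_
        rw [mk_YY]
        exact cc_mono hn
      refine (Cardinal.mk_le_of_injective (f := fun p : PP (YY 1) (SS n) => p.c) ?_).trans
        (finset_le h0 h1)
      rintro ⟨p, hp⟩ ⟨q, hq⟩ h
      simp only at h
      subst h
      rfl
    obtain ⟨g, hg⟩ := exists_surj (X := YY n) (Z := ℕ → ℕ → Option (PP (YY 1) (SS n))) (by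
      rw [mk_YY]
      exact pow_fun_le (cc_pow n) (pow_fun_le (cc_pow n) (option_le h0 hP)))
    exact cont_forced pccc g hg p
  · intro i hi
    refine ⟨fun a => ?_, noSurj_forced pccc ?_ p, ?_⟩
    · obtain ⟨f, hf⟩ := chain_YY i a
      exact inj_forced f hf p
    · rw [mk_YY, mk_YY]
      refine Cardinal.mul_lt_of_lt (aleph0_le_cc _) (cc_lt i) ?_
      exact (aleph0_le_cc i).trans_lt (cc_lt i)
    · have hnon : Nonempty {η : YY 1 × (ℕ → KK n) × ℕ × ℕ // GI (SS n) ⟨i, hi⟩ η} := by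
        obtain ⟨α⟩ := hne
        obtain ⟨e, he1, he2, _⟩ := exists_enum (SS_infinite n ⟨i, hi⟩) Set.countable_empty
          (Set.empty_subset _)
        exact ⟨⟨(α, e, 0, 0), he1, he2⟩⟩
      obtain ⟨f, hf⟩ := exists_surj (mk_GI_le n ⟨i, hi⟩)
      have h1 := pair_forced (S := SS n) (W := YY 1) (i := ⟨i, hi⟩) (SS_infinite n ⟨i, hi⟩) hbddN
        (emb n ⟨i, hi⟩) (emb_injective n ⟨i, hi⟩) (range_emb n ⟨i, hi⟩) (fun y => (f y).1)
        (fun y => (f y).2) (fun η hη => by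
          obtain ⟨y, hy⟩ := hf ⟨η, hη⟩
          exact ⟨y, by rw [hy]⟩)
      refine mem_fex.2 fun q _ => ⟨q, le_rfl, _, mem_fex.2 fun r _ => ⟨r, le_rfl, _, h1 r⟩⟩

end Pool.Agent.KS6_46.Sp
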