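import Pool.Agent.KS6_46.Sp.Sent

/-!
# For the trivial forcing the sentence is the plain statement
-/

set_option autoImplicit false

namespace Pool.Agent.KS6_46.Sp

open Cardinal Pool.Agent.Helper669.Forcing

section

variable {φ ψ : Set Unit} {u : Unit}

theorem triv_fnot : u ∈ fnot φ ↔ u ∉ φ := ⟨fun h => h u le_rfl, fun h _ _ => h⟩

theorem triv_fand : u ∈ fand φ ψ ↔ u ∈ φ ∧ u ∈ ψ := Iff.rfl

theorem triv_fall {ι : Sort*} {φ : ι → Set Unit} : u ∈ fall φ ↔ ∀ i, u ∈ φ i := Iff.rfl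

theorem triv_fground {h : Prop} : u ∈ fground (P := Unit) h ↔ h := Iff.rfl

theorem triv_fex {ι : Sort*} {φ : ι → Set Unit} : u ∈ fex φ ↔ ∃ i, u ∈ φ i := by
  rw [mem_fex]
  constructor
  · intro h
    obtain ⟨_, _, i, hi⟩ := h u le_rfl
    exact ⟨i, hi⟩
  · rintro ⟨i, hi⟩ _ _
    exact ⟨u, le_rfl, i, hi⟩

theorem triv_fimp : u ∈ fimp φ ψ ↔ (u ∈ φ → u ∈ ψ) := by
  rw [mem_fimp]
  constructor
  · intro h h'
    obtain ⟨_, _, hi⟩ := h u le_rfl h'
    exact hi
  · intro h _ _ h'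
    exact ⟨u, le_rfl, h h'⟩

theorem triv_forr : u ∈ forr φ ψ ↔ (u ∈ φ ∨ u ∈ ψ) := by
  rw [forr, triv_fnot, triv_fand, triv_fnot, triv_fnot]
  tauto

theorem triv_meets : u ∈ meets φ ↔ u ∈ φ := by
  constructor
  · intro h
    obtain ⟨_, _, s, hs, _⟩ := h u le_rfl
    exact hs
  · intro h _ _
    exact ⟨u, le_rfl, u, h, le_rfl⟩

end

theorem triv_InfN {x : ℕ → Set Unit} {u : Unit} : u ∈ InfN x ↔ Inf fun k => u ∈ x k := by
  simp only [InfN, Inf, triv_fall, triv_fex, triv_fand, triv_fground, triv_meets]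

theorem triv_PairN {Y : Type} {A B : Y → ℕ → Set Unit} {u : Unit} :
    u ∈ PairN A B ↔ PairFor (fun y k => u ∈ A y k) (fun y k => u ∈ B y k) := by
  simp only [PairN, PairFor, triv_fall, triv_fex, triv_fand, triv_fground, triv_meets,
    triv_InfN, triv_fimp, triv_forr, triv_fnot]
  refine and_congr_right fun _ => and_congr_right fun _ => and_congr_left fun _ => ?_
  constructor
  · intro h x
    exact h fun k => {_u | x k}
  · intro h x
    exact h fun k => u ∈ x k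

theorem triv_SplitN {D : Type} {u : Unit} : u ∈ SplitN Unit D ↔ SplitFor D := by
  simp only [SplitN, SplitFor, triv_fall, triv_fex, triv_fand, triv_fground, triv_meets,
    triv_InfN, triv_fimp, triv_fnot]
  constructor
  · intro h Z hZ
    obtain ⟨c, hc⟩ := h (fun d k => {_u | Z d k}) hZ
    exact ⟨fun k => u ∈ c k, hc⟩
  · intro h Z hZ
    obtain ⟨c, hc⟩ := h (fun d k => u ∈ Z d k) hZ
    exact ⟨fun k => {_u | c k}, hc⟩

theorem triv_ContN {Y : Type} {u : Unit} : u ∈ ContN Unit Y ↔ ContFor Y := by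
  simp only [ContN, ContFor, triv_fall, triv_fex, triv_fand, triv_meets, triv_fimp]
  constructor
  · rintro ⟨E, hE⟩
    refine ⟨fun y k => u ∈ E y k, fun x => ?_⟩
    exact hE fun k => {_u | x k}
  · rintro ⟨E, hE⟩
    refine ⟨fun y k => {_u | E y k}, fun x => ?_⟩
    exact hE fun k => u ∈ x k

theorem triv_NoSurjN {X Y : Type} {u : Unit} :
    u ∈ NoSurjN Unit X Y ↔ ¬ ∃ f : X → Y, Function.Surjective f := by
  simp only [NoSurjN, IsFun, IsOnto, triv_fall, triv_fex, triv_fand, triv_fground, triv_meets,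
    triv_fimp, triv_fnot]
  refine not_congr ⟨?_, ?_⟩
  · rintro ⟨R, ⟨h1, h2⟩, h3⟩
    choose f hf using h1
    refine ⟨f, fun y => ?_⟩
    obtain ⟨x, hx⟩ := h3 y
    exact ⟨x, h2 x _ _ ⟨hf x, hx⟩⟩
  · rintro ⟨f, hf⟩
    refine ⟨fun x y => {_u | f x = y}, ⟨fun x => ⟨f x, rfl⟩, ?_⟩, fun y => ?_⟩
    · rintro x y y' ⟨h1, h2⟩
      have e1 : f x = y := h1
      have e2 : f x = y' := h2
      exact e1.symm.trans e2
    · obtain ⟨x, hx⟩ := hf y
      exact ⟨x, hx⟩

theorem triv_InjN {X Y : Type} {u : Unit} :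
    u ∈ InjN Unit X Y ↔ ∃ f : X → Y, Function.Injective f := by
  simp only [InjN, IsFun, IsInj, triv_fall, triv_fex, triv_fand, triv_fground, triv_meets,
    triv_fimp]
  refine ⟨?_, ?_⟩
  · rintro ⟨R, ⟨h1, _⟩, h3⟩
    choose f hf using h1
    refine ⟨f, fun x x' hxx => h3 x x' (f x) ⟨hf x, ?_⟩⟩
    rw [hxx]
    exact hf x'
  · rintro ⟨f, hf⟩
    refine ⟨fun x y => {_u | f x = y}, ⟨fun x => ⟨f x, rfl⟩, ?_⟩, ?_⟩
    · rintro x y y' ⟨h1, h2⟩
      have e1 : f x = y := h1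
      have e2 : f x = y' := h2
      exact e1.symm.trans e2
    · rintro x x' y ⟨h1, h2⟩
      have e1 : f x = y := h1
      have e2 : f x' = y := h2
      exact hf (e1.trans e2.symm)

/-- For the trivial forcing the sentence is the plain statement. -/
theorem triv_PhiHolds {n : ℕ} {Y : ℕ → Type} [∀ i, LinearOrder (Y i)] {u : Unit} :
    u ∈ PhiHolds Unit n Y ↔ PhiFor n Y := by
  simp only [PhiHolds, PhiFor, triv_fall, triv_fex, triv_fand, triv_SplitN, triv_ContN,
    triv_NoSurjN, triv_PairN, triv_InjN]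
  refine and_congr_right fun _ => and_congr_right fun _ => and_congr_right fun _ =>
    forall_congr' fun i => forall_congr' fun hi => and_congr_right fun _ =>
    and_congr_right fun _ => ?_
  constructor
  · rintro ⟨A, B, h⟩
    exact ⟨_, _, h⟩
  · rintro ⟨A, B, h⟩
    exact ⟨fun y k => {_u | A y k}, fun y k => {_u | B y k}, h⟩

end Pool.Agent.KS6_46.Sp
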