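import Pool.Agent.KS6_46.Sp.Sent

/-!
# The plain sentence implies that the high spectrum is finite
-/

set_option autoImplicit false

namespace Pool.Agent.KS6_46.Sp

open Classical Cardinal Pool.Agent.Helper669.Forcing

/-- the filter generated by the sets `B η` is an ultrafilter -/
theorem exists_ultra {Y : Type} {A B : Y → ℕ → Prop} (h : PairFor A B) :
    ∃ U : Ultrafilter ℕ, ∀ X : Set ℕ, X ∈ U ↔ ∃ η, ∀ k, B η k → k ∈ X := by
  obtain ⟨hinf, hdir, hdec, _, _⟩ := h
  let F : Filter ℕ :=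
    { sets := {X | ∃ η, ∀ k, B η k → k ∈ X}
      univ_sets := by
        obtain ⟨η, _⟩ := hdec fun _ => True
        exact ⟨η, fun k _ => trivial⟩
      sets_of_superset := by
        rintro X Z ⟨η, hη⟩ hXZ
        exact ⟨η, fun k hk => hXZ (hη k hk)⟩
      inter_sets := by
        rintro X Z ⟨η, hη⟩ ⟨η', hη'⟩
        obtain ⟨η'', h''⟩ := hdir η η'
        exact ⟨η'', fun k hk => ⟨hη k (h'' k hk).1, hη' k (h'' k hk).2⟩⟩ }
  have hF : ∀ X : Set ℕ, X ∈ F ↔ ∃ η, ∀ k, B η k → k ∈ X := fun X => Iff.rfl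
  refine ⟨Ultrafilter.ofComplNotMemIff F fun X => ⟨fun hX => ?_, fun hX hXc => ?_⟩, hF⟩
  · obtain ⟨η, h1 | h1⟩ := hdec fun k => k ∈ X
    · exact ⟨η, h1⟩
    · exact absurd ⟨η, h1⟩ hX
  · obtain ⟨η, hη⟩ := hX
    obtain ⟨η', hη'⟩ := hXc
    obtain ⟨η'', h''⟩ := hdir η η'
    obtain ⟨k, _, hk⟩ := hinf η'' 0
    exact hη' k (h'' k hk).2 (hη k (h'' k hk).1)

theorem PairFor.reindex {Y Z : Type} (e : Y ≃ Z) {A B : Y → ℕ → Prop} (h : PairFor A B) :
    PairFor (fun z => A (e.symm z)) (fun z => B (e.symm z)) := by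
  obtain ⟨h1, h2, h3, h4, h5⟩ := h
  refine ⟨fun η => h1 _, fun η η' => ?_, fun x => ?_, fun ξ => ?_, fun η => ?_⟩
  · obtain ⟨η'', h⟩ := h2 (e.symm η) (e.symm η')
    exact ⟨e η'', by simpa using h⟩
  · obtain ⟨η, h⟩ := h3 x
    exact ⟨e η, by simpa using h⟩
  · obtain ⟨η, h⟩ := h4 (e.symm ξ)
    exact ⟨e η, by simpa using h⟩
  · obtain ⟨F, hF⟩ := h5 (e.symm η)
    refine ⟨F.map e.toEmbedding, fun ξ hξ => ?_⟩
    rw [Finset.mem_map]
    exact ⟨e.symm ξ, hF _ hξ, by simp⟩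

theorem mem_specPlus_of_pair {Y : Type} (hY : ℵ₁ ≤ #Y) {A B : Y → ℕ → Prop}
    (h : PairFor A B) : #Y ∈ specPlus := by
  refine ⟨hY, ?_⟩
  obtain ⟨e⟩ : Nonempty (Y ≃ (#Y).out) := by
    rw [← Cardinal.eq, mk_out]
  have h' := h.reindex e
  generalize (fun z => A (e.symm z)) = A' at h'
  generalize (fun z => B (e.symm z)) = B' at h'
  clear h e
  generalize (#Y).out = Z at *
  clear hY A B
  obtain ⟨U, hU⟩ := exists_ultra h'
  obtain ⟨hinf, hdir, hdec, hA, hfin⟩ := h'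
  refine ⟨U, ?_, ?_, ?_⟩
  · rintro k rfl
    have h1 : ({k} : Set ℕ) ∈ (pure k : Ultrafilter ℕ) := by simp
    obtain ⟨η, hη⟩ := (hU _).1 h1
    obtain ⟨k', hk', h2⟩ := hinf η (k + 1)
    have h3 : k' = k := hη k' h2
    omega
  · -- from the ultrafilter to the finite sets
    have h1 : ∀ X : {X : Set ℕ // X ∈ U}ᵒᵈ, ∃ η, ∀ k, B' η k → k ∈ (OrderDual.ofDual X).1 :=
      fun X => (hU _).1 (OrderDual.ofDual X).2
    choose f hf using h1
    refine ⟨fun X => {f X}, fun 𝒳 h𝒳 hb => h𝒳 ?_⟩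
    obtain ⟨F, hF⟩ := hb
    have h2 : (⋂ η ∈ F, {k | B' η k}) ∈ U := by
      rw [← Ultrafilter.mem_coe, Filter.biInter_finset_mem]
      intro η _
      exact (hU _).2 ⟨η, fun k hk => hk⟩
    refine ⟨OrderDual.toDual ⟨_, h2⟩, fun X hX => ?_⟩
    have h3 : f X ∈ F := by
      have := hF ⟨X, hX, rfl⟩
      exact Finset.singleton_subset_iff.1 this
    show (⋂ η ∈ F, {k | B' η k}) ⊆ (OrderDual.ofDual X).1
    intro k hk
    exact hf X k (by
      have := Set.mem_iInter₂.1 hk (f X) h3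
      exact this)
  · -- from the finite sets to the ultrafilter
    have h1 : ∀ F : Finset Z, (⋂ ξ ∈ F, {k | A' ξ k}) ∈ U := by
      intro F
      rw [← Ultrafilter.mem_coe, Filter.biInter_finset_mem]
      intro ξ _
      exact (hU _).2 (hA ξ)
    refine ⟨fun F => OrderDual.toDual ⟨_, h1 F⟩, fun 𝒳 h𝒳 hb => h𝒳 ?_⟩
    obtain ⟨X, hX⟩ := hb
    obtain ⟨η, hη⟩ := (hU _).1 (OrderDual.ofDual X).2
    obtain ⟨F₀, hF₀⟩ := hfin η
    refine ⟨F₀, fun F hF => ?_⟩
    have h2 : (OrderDual.ofDual X).1 ⊆ ⋂ ξ ∈ F, {k | A' ξ k} := hX ⟨F, hF, rfl⟩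
    intro ξ hξ
    refine hF₀ ξ fun k hk => ?_
    exact Set.mem_iInter₂.1 (h2 (hη k hk)) ξ hξ

theorem le_continuum_of_mem {κ : Cardinal.{0}} (h : κ ∈ specPlus) : κ ≤ #(Set ℕ) := by
  obtain ⟨_, U, _, _, f, hf⟩ := h
  let g : κ.out → Set ℕ := fun ξ => (OrderDual.ofDual (f {ξ})).1
  have hfib : ∀ X : Set ℕ, {ξ | g ξ = X}.Finite := by
    intro X
    have h1 : BddAbove ((fun ξ : κ.out => ({ξ} : Finset κ.out)) '' {ξ | g ξ = X}) := by
      by_contra hcon
      apply hf _ hcon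
      rcases {ξ | g ξ = X}.eq_empty_or_nonempty with h0 | ⟨ξ₀, h0⟩
      · rw [h0]
        refine ⟨f ∅, ?_⟩
        rintro _ ⟨_, ⟨ξ, hξ, _⟩, _⟩
        exact absurd hξ (Set.notMem_empty _)
      · refine ⟨f {ξ₀}, ?_⟩
        rintro _ ⟨_, ⟨ξ, hξ, rfl⟩, rfl⟩
        have h2 : g ξ = g ξ₀ := hξ.trans (h0 : g ξ₀ = X).symm
        show (OrderDual.ofDual (f {ξ₀})).1 ⊆ (OrderDual.ofDual (f {ξ})).1
        exact h2.symm.subset
    obtain ⟨F, hF⟩ := h1
    refine F.finite_toSet.subset fun ξ hξ => ?_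
    have := hF ⟨ξ, hξ, rfl⟩
    exact Finset.singleton_subset_iff.1 this
  have h2 : #κ.out = Cardinal.sum fun X : Set ℕ => #{ξ // g ξ = X} := by
    rw [← mk_sigma]
    exact (Equiv.sigmaFiberEquiv g).symm.cardinal_eq
  rw [mk_out] at h2
  rw [h2]
  refine (Cardinal.sum_le_sum _ (fun _ => ℵ₀) fun X => ?_).trans ?_
  · have : Finite {ξ // g ξ = X} := (hfib X).to_subtype
    exact mk_le_aleph0
  · rw [Cardinal.sum_const']
    have h3 : #(Set ℕ) = 𝔠 := by simp
    rw [h3]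
    exact (Cardinal.mul_eq_left aleph0_le_continuum aleph0_le_continuum aleph0_ne_zero).le

theorem lt_of_mem {κ : Cardinal.{0}} (h : κ ∈ specPlus) {D : Type} (hD : SplitFor D) : #D < κ := by
  obtain ⟨hκ, U, hU, ⟨g, hg⟩, _⟩ := h
  by_contra hcon
  rw [not_lt] at hcon
  have h1 : ∀ F : Finset κ.out, BddAbove {X | g X ≤ F} := by
    intro F
    by_contra hcon
    apply hg _ hcon
    refine ⟨F, ?_⟩
    rintro _ ⟨X, hX, rfl⟩
    exact hX
  choose Z hZ using h1
  have hZinf : ∀ F, Inf fun k => k ∈ (OrderDual.ofDual (Z F)).1 := by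
    intro F m
    by_contra hc
    push Not at hc
    have hfin : (OrderDual.ofDual (Z F)).1.Finite :=
      (Set.finite_lt_nat m).subset fun k hk => by
        by_contra h2
        exact hc k (not_lt.1 h2) hk
    obtain ⟨k, _, hk⟩ := Ultrafilter.eq_pure_of_finite_mem hfin (OrderDual.ofDual (Z F)).2
    exact hU k hk
  have hκinf : Infinite κ.out := by
    rw [Cardinal.infinite_iff, mk_out]
    exact (Cardinal.aleph0_le_aleph 1).trans hκ
  obtain ⟨s, hs⟩ : ∃ s : D → Finset κ.out, Function.Surjective s := by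
    have h2 : #(Finset κ.out) ≤ #D := by
      rw [Cardinal.mk_finset_of_infinite, mk_out]
      exact hcon
    obtain ⟨e⟩ := h2
    exact ⟨Function.invFun e, Function.invFun_surjective e.injective⟩
  obtain ⟨c, hc⟩ := hD (fun d k => k ∈ (OrderDual.ofDual (Z (s d))).1) fun d => hZinf _
  have key : ∀ X : {X : Set ℕ // X ∈ U}, ∃ d, (OrderDual.ofDual (Z (s d))).1 ⊆ X.1 := by
    intro X
    obtain ⟨d, hd⟩ := hs (g (OrderDual.toDual X))
    refine ⟨d, ?_⟩
    rw [hd]
    exact hZ (g (OrderDual.toDual X)) (le_refl (g (OrderDual.toDual X)))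
  rcases U.mem_or_compl_mem {k | c k} with h3 | h3
  · obtain ⟨d, hd⟩ := key ⟨_, h3⟩
    obtain ⟨k, _, hk1, hk2⟩ := (hc d).2 0
    exact hk2 (hd hk1)
  · obtain ⟨d, hd⟩ := key ⟨_, h3⟩
    obtain ⟨k, _, hk1, hk2⟩ := (hc d).1 0
    exact hd hk1 hk2

/-- a linear order all of whose proper initial segments are small is small -/
theorem mk_le_succ {X Z : Type} [LinearOrder X] [Infinite Z]
    (h : ∀ a : X, Nonempty (Set.Iio a ↪ Z)) : #X ≤ Order.succ #Z := by
  by_contra hcon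
  rw [not_le] at hcon
  obtain ⟨T, hT⟩ : ∃ T : Set X, #T = Order.succ #Z := Cardinal.le_mk_iff_exists_set.1 hcon.le
  have h0 : ℵ₀ ≤ #Z := Cardinal.aleph0_le_mk Z
  have h1 : ∀ a : X, #(Set.Iic a) ≤ #Z := by
    intro a
    rw [← Set.Iio_insert]
    refine (Cardinal.mk_insert_le).trans ?_
    calc #(Set.Iio a) + 1 ≤ #Z + #Z := add_le_add (Cardinal.le_def _ _ |>.2 (h a))
          (one_le_aleph0.trans h0)
      _ = #Z := Cardinal.add_eq_self h0
  have h2 : ∃ a, ∀ t ∈ T, t < a := by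
    by_contra hc
    push Not at hc
    have h3 : (Set.univ : Set X) ⊆ ⋃ t : T, Set.Iic t.1 := by
      intro a _
      obtain ⟨t, ht, hat⟩ := hc a
      exact Set.mem_iUnion.2 ⟨⟨t, ht⟩, hat⟩
    have h4 : #X ≤ Order.succ #Z := by
      rw [← Cardinal.mk_univ]
      refine (Cardinal.mk_le_mk_of_subset h3).trans ((Cardinal.mk_iUnion_le _).trans ?_)
      calc #T * _ ≤ Order.succ #Z * Order.succ #Z := by
            rw [hT]
            exact mul_le_mul' le_rfl (ciSup_le' fun t => (h1 t.1).trans (Order.le_succ _))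
        _ = Order.succ #Z := Cardinal.mul_eq_self (h0.trans (Order.le_succ _))
    exact absurd h4 (not_le.2 hcon)
  obtain ⟨a, ha⟩ := h2
  have h5 : #T ≤ #Z := (Cardinal.mk_le_mk_of_subset fun t ht => ha t ht).trans
    (Cardinal.le_def _ _ |>.2 (h a))
  rw [hT] at h5
  exact absurd h5 (not_le.2 (Order.lt_succ _))

/-- The statement implies that the high spectrum has exactly `n` elements. -/
theorem encard_specPlus {n : ℕ} {Y : ℕ → Type} [∀ i, LinearOrder (Y i)]
    (h : PhiFor n Y) : Set.encard specPlus = n := by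
  obtain ⟨⟨f0, hf0⟩, hsplit, hcont, hpair'⟩ := h
  have hpair : ∀ i < n, (¬ ∃ f : Y i → Y (i + 1), Function.Surjective f) ∧
      ∃ A B : Y (i + 1) → ℕ → Prop, PairFor A B := fun i hi => (hpair' i hi).2
  have hlt : ∀ i < n, #(Y i) < #(Y (i + 1)) := by
    intro i hi
    obtain ⟨h1, A, B, h2⟩ := hpair i hi
    obtain ⟨η, _⟩ := h2.2.2.1 fun _ => True
    rw [← not_le]
    rintro ⟨e⟩
    have : Nonempty (Y (i + 1)) := ⟨η⟩
    exact h1 ⟨Function.invFun e, Function.invFun_surjective e.injective⟩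
  have hinf : ∀ i ≤ n, ℵ₀ ≤ #(Y i) := by
    intro i
    induction i with
    | zero =>
      intro _
      have : Infinite (Y 0) := Infinite.of_injective f0 hf0
      exact Cardinal.aleph0_le_mk _
    | succ i ih =>
      intro hi
      exact (ih (by omega)).trans (hlt i (by omega)).le
  have hsucc : ∀ i < n, #(Y (i + 1)) = Order.succ #(Y i) := by
    intro i hi
    refine le_antisymm ?_ (Order.succ_le_of_lt (hlt i hi))
    have : Infinite (Y i) := Cardinal.infinite_iff.2 (hinf i hi.le)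
    refine mk_le_succ fun a => ?_
    obtain ⟨f, hf⟩ := (hpair' i hi).1 a
    exact ⟨⟨f, hf⟩⟩
  have hspec : specPlus = ((Finset.range n).image fun i => #(Y (i + 1)) : Finset Cardinal) := by
    ext κ
    rw [Finset.mem_coe, Finset.mem_image]
    constructor
    · intro hκ
      have h1 : #(Y 0) < κ := lt_of_mem hκ hsplit
      have h2 : κ ≤ #(Y n) := by
        refine (le_continuum_of_mem hκ).trans ?_
        obtain ⟨E, hE⟩ := hcont
        refine Cardinal.mk_le_of_surjective (f := fun y => {k | E y k}) fun X => ?_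
        obtain ⟨y, hy⟩ := hE fun k => k ∈ X
        exact ⟨y, Set.ext fun k => ⟨(hy k).1, (hy k).2⟩⟩
      have h3 : ∃ j, κ ≤ #(Y j) := ⟨n, h2⟩
      have h4 := Nat.find_spec h3
      have h5 : Nat.find h3 ≤ n := Nat.find_min' h3 h2
      rcases hj : Nat.find h3 with _ | i
      · rw [hj] at h4
        exact absurd h4 (not_le.2 h1)
      · rw [hj] at h4 h5
        refine ⟨i, Finset.mem_range.2 (by omega), le_antisymm ?_ h4⟩
        rw [hsucc i (by omega)]
        refine Order.succ_le_of_lt (not_le.1 fun h6 => ?_)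
        have := Nat.find_min' h3 h6
        omega
    · rintro ⟨i, hi, rfl⟩
      rw [Finset.mem_range] at hi
      obtain ⟨_, A, B, hAB⟩ := hpair i hi
      refine mem_specPlus_of_pair ?_ hAB
      rw [← Cardinal.succ_aleph0]
      exact Order.succ_le_of_lt ((hinf i hi.le).trans_lt (hlt i hi))
  rw [hspec, Set.encard_coe_eq_coe_finsetCard, Finset.card_image_of_injOn, Finset.card_range]
  have hmono : ∀ i j, i < j → j ≤ n → #(Y i) < #(Y j) := by
    intro i j hij
    induction j with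
    | zero => omega
    | succ j ih =>
      intro hj
      rcases Nat.lt_succ_iff_lt_or_eq.1 hij with h1 | h1
      · exact (ih h1 (by omega)).trans (hlt j (by omega))
      · rw [h1]
        exact hlt j (by omega)
  intro i hi j hj hij
  rw [Finset.mem_coe, Finset.mem_range] at hi hj
  simp only at hij
  rcases lt_trichotomy i j with h1 | h1 | h1
  · exact absurd hij (hmono (i + 1) (j + 1) (by omega) (by omega)).ne
  · exact h1
  · exact absurd hij.symm (hmono (j + 1) (i + 1) (by omega) (by omega)).ne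

end Pool.Agent.KS6_46.Sp
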